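import Pool.Agent.H94.PT.M04
import Pool.Agent.H94.PT.M07

/-!
# Basic properties of the coordinate curvature form `Rm` (project HS)
-/

namespace Pool.Agent.HS

open scoped Topology

variable {E : Type*} [NormedAddCommGroup E] [NormedSpace ℝ E]
variable {G : E → E →L[ℝ] E →L[ℝ] ℝ} {p : E}

theorem contDiffAt_coeff {n : WithTop ℕ∞} (hG : ContDiffAt ℝ n G p) (u v : E) :
    ContDiffAt ℝ n (fun q => G q u v) p := by
  have h := contDiffAt_clm (F := E →L[ℝ] E →L[ℝ] ℝ) (F' := ℝ) hG (ev2 u v)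
  exact h

theorem D2_dd (hG : ContDiffAt ℝ 2 G p) (x y u v : E) :
    D2 G p x y u v = dd G p x y u v :=
  dd_clm hG (ev2 u v) x y

/-- `D2` as second derivative of the coefficient. -/
theorem D2_coeff (G : E → E →L[ℝ] E →L[ℝ] ℝ) (p x y u v : E) :
    D2 G p x y u v = dd (fun q => G q u v) p x y := rfl

theorem Gam_ext (hG : DifferentiableAt ℝ G p) {x y : E} {α : E →L[ℝ] ℝ}
    (h : ∀ z, (D1 G p x y z + D1 G p y x z - D1 G p z x y) / 2 = α z) : Gam G p x y = α := by
  ext z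
  rw [Gam_apply hG, h]

theorem D2_congr {G' : E → E →L[ℝ] E →L[ℝ] ℝ} (h : G =ᶠ[𝓝 p] G') (x y u v : E) :
    D2 G p x y u v = D2 G' p x y u v := by
  have h' : (fun q => G q u v) =ᶠ[𝓝 p] fun q => G' q u v := by
    filter_upwards [h] with q hq
    rw [hq]
  exact dd_congr h' x y

theorem Gam_congr {G' : E → E →L[ℝ] E →L[ℝ] ℝ} (h : G =ᶠ[𝓝 p] G') (x y : E) :
    Gam G p x y = Gam G' p x y := by
  have h1 : ∀ u : E, (fun q => G q u) =ᶠ[𝓝 p] fun q => G' q u := by
    intro u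
    filter_upwards [h] with q hq
    rw [hq]
  have h' : (fun q => G q x y) =ᶠ[𝓝 p] fun q => G' q x y := by
    filter_upwards [h] with q hq
    rw [hq]
  unfold Gam
  rw [(h1 x).fderiv_eq, (h1 y).fderiv_eq, h'.fderiv_eq]

/-- `Rm` only depends on the germ of the metric. -/
theorem Rm_congr {G' : E → E →L[ℝ] E →L[ℝ] ℝ} (h : G =ᶠ[𝓝 p] G') (x y : E) :
    Rm G p x y = Rm G' p x y := by
  unfold Rm
  rw [D2_congr h, D2_congr h, D2_congr h, Gam_congr h, Gam_congr h, Gam_congr h, h.eq_of_nhds]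

theorem D2_comm (hG : ContDiffAt ℝ 2 G p) (x y u v : E) :
    D2 G p x y u v = D2 G p y x u v := by
  rw [D2_dd hG, D2_dd hG, dd_comm hG]

theorem D2_symm (hs : SymmNear G p) (x y u v : E) : D2 G p x y u v = D2 G p x y v u := by
  have h' : (fun q => G q u v) =ᶠ[𝓝 p] fun q => G q v u := by
    filter_upwards [hs] with q hq
    rw [hq]
  exact dd_congr h' x y

theorem Gam_comm (hs : SymmNear G p) (x y : E) : Gam G p x y = Gam G p y x := by
  have h' : (fun q => G q x y) =ᶠ[𝓝 p] fun q => G q y x := by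
    filter_upwards [hs] with q hq
    rw [hq]
  unfold Gam
  rw [h'.fderiv_eq, add_comm (fderiv ℝ (fun q => G q y) p x)]

theorem D1_lin1 (G : E → E →L[ℝ] E →L[ℝ] ℝ) (p x x' u v : E) (a b : ℝ) :
    D1 G p (a • x + b • x') u v = a * D1 G p x u v + b * D1 G p x' u v := by
  unfold D1; simp

theorem D1_lin2 (hG : DifferentiableAt ℝ G p) (x u u' v : E) (a b : ℝ) :
    D1 G p x (a • u + b • u') v = a * D1 G p x u v + b * D1 G p x u' v := by
  rw [D1_fderiv hG, D1_fderiv hG, D1_fderiv hG, map_add, map_smul, map_smul]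
  rfl

theorem D1_lin3 (hG : DifferentiableAt ℝ G p) (x u v v' : E) (a b : ℝ) :
    D1 G p x u (a • v + b • v') = a * D1 G p x u v + b * D1 G p x u v' := by
  rw [D1_fderiv hG, D1_fderiv hG, D1_fderiv hG, map_add, map_smul, map_smul]
  rfl

theorem D2_lin1 (G : E → E →L[ℝ] E →L[ℝ] ℝ) (p x x' y u v : E) (a b : ℝ) :
    D2 G p (a • x + b • x') y u v = a * D2 G p x y u v + b * D2 G p x' y u v := by
  unfold D2; simp

theorem D2_lin2 (hG : ContDiffAt ℝ 2 G p) (x y y' u v : E) (a b : ℝ) :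
    D2 G p x (a • y + b • y') u v = a * D2 G p x y u v + b * D2 G p x y' u v := by
  rw [D2_comm hG, D2_lin1, D2_comm hG y x, D2_comm hG y' x]

theorem D2_lin3 (hG : ContDiffAt ℝ 2 G p) (x y u u' v : E) (a b : ℝ) :
    D2 G p x y (a • u + b • u') v = a * D2 G p x y u v + b * D2 G p x y u' v := by
  rw [D2_dd hG, D2_dd hG, D2_dd hG, map_add, map_smul, map_smul]
  rfl

theorem D2_lin4 (hG : ContDiffAt ℝ 2 G p) (x y u v v' : E) (a b : ℝ) :
    D2 G p x y u (a • v + b • v') = a * D2 G p x y u v + b * D2 G p x y u v' := by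
  rw [D2_dd hG, D2_dd hG, D2_dd hG, map_add, map_smul, map_smul]
  rfl

theorem Gam_lin1 (hG : DifferentiableAt ℝ G p) (x x' y : E) (a b : ℝ) :
    Gam G p (a • x + b • x') y = a • Gam G p x y + b • Gam G p x' y := by
  ext z
  change Gam G p (a • x + b • x') y z = a * Gam G p x y z + b * Gam G p x' y z
  rw [Gam_apply hG, Gam_apply hG, Gam_apply hG, D1_lin1, D1_lin2 hG, D1_lin2 hG]
  ring

theorem Gam_lin2 (hG : DifferentiableAt ℝ G p) (x y y' : E) (a b : ℝ) :
    Gam G p x (a • y + b • y') = a • Gam G p x y + b • Gam G p x y' := by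
  ext z
  change Gam G p x (a • y + b • y') z = a * Gam G p x y z + b * Gam G p x y' z
  rw [Gam_apply hG, Gam_apply hG, Gam_apply hG, D1_lin1, D1_lin2 hG, D1_lin3 hG]
  ring

/-- The curvature form is a quadratic form of the bivector `x ∧ y`. -/
theorem Rm_plane' (hG : ContDiffAt ℝ 2 G p) (hs : SymmNear G p)
    (hc : ∀ α β : E →L[ℝ] ℝ, cov (G p) α β = cov (G p) β α) (x y : E) (a b c d : ℝ) :
    Rm G p (a • x + b • y) (c • x + d • y) = (a * d - b * c) ^ 2 * Rm G p x y := by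
  have h1 := diff1 hG
  unfold Rm
  simp only [Gam_lin1 h1, Gam_lin2 h1, D2_lin1, D2_lin2 hG, D2_lin3 hG, D2_lin4 hG,
    cov_add_left, cov_add_right, cov_smul_left, cov_smul_right]
  rw [Gam_comm hs y x, hc (Gam G p x y) (Gam G p x x), hc (Gam G p y y) (Gam G p x x),
    hc (Gam G p y y) (Gam G p x y)]
  simp only [D2_comm hG y x, D2_symm hs _ _ y x]
  ring

theorem Rm_plane [FiniteDimensional ℝ E] (hG : ContDiffAt ℝ 2 G p) (hs : SymmNear G p)
    (hi : IsInner (G p)) (x y : E) (a b c d : ℝ) :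
    Rm G p (a • x + b • y) (c • x + d • y) = (a * d - b * c) ^ 2 * Rm G p x y :=
  Rm_plane' hG hs (cov_comm hi) x y a b c d

/-- To prove positivity it is enough to find in every plane one basis with `Rm > 0`. -/
theorem PosAt.of_basis [FiniteDimensional ℝ E] (hG : ContDiffAt ℝ 2 G p) (hs : SymmNear G p)
    (hi : IsInner (G p))
    (h : ∀ x y : E, LinearIndependent ℝ ![x, y] →
      ∃ a b c d : ℝ, 0 < Rm G p (a • x + b • y) (c • x + d • y)) : PosAt G p := by
  intro x y hxy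
  obtain ⟨a, b, c, d, h1⟩ := h x y hxy
  rw [Rm_plane hG hs hi] at h1
  by_contra hneg
  have : (a * d - b * c) ^ 2 * Rm G p x y ≤ 0 :=
    mul_nonpos_of_nonneg_of_nonpos (sq_nonneg _) (not_lt.mp hneg)
  linarith

end Pool.Agent.HS
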