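import Mathlib

/-!
# The Cayley (Rodrigues) chart of `SO(3)` (project HS, MP_55c470_gt)

`cayR a` is the rotation with Rodrigues vector `a` (axis `a`, angle `θ` with `tan (θ/2) = |a|/2`),
`cayE a b` is its angular velocity: `∂_b (cayR a v) = cayE a b × cayR a v`.
All identities are rational.
-/

namespace Pool.Agent.HS

open Matrix

/-- The cross product of `ℝ³` as a continuous bilinear map. -/
noncomputable def crossL : (Fin 3 → ℝ) →L[ℝ] (Fin 3 → ℝ) →L[ℝ] (Fin 3 → ℝ) :=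
  LinearMap.toContinuousLinearMap
    ((LinearMap.toContinuousLinearMap :
      ((Fin 3 → ℝ) →ₗ[ℝ] (Fin 3 → ℝ)) ≃ₗ[ℝ] ((Fin 3 → ℝ) →L[ℝ] (Fin 3 → ℝ))).toLinearMap ∘ₗ
      crossProduct)

/-- The denominator `1 + |a|²/4`. -/
noncomputable def cayN (a : Fin 3 → ℝ) : ℝ := 1 + (a ⬝ᵥ a) / 4

theorem cayN_pos (a : Fin 3 → ℝ) : 0 < cayN a := by
  have h : 0 ≤ a ⬝ᵥ a := by
    rw [dotProduct]
    exact Finset.sum_nonneg fun i _ => mul_self_nonneg _
  unfold cayN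
  linarith

/-- The rotation with Rodrigues vector `a`. -/
noncomputable def cayR (a : Fin 3 → ℝ) : (Fin 3 → ℝ) →L[ℝ] (Fin 3 → ℝ) :=
  ContinuousLinearMap.id ℝ (Fin 3 → ℝ)
    + (cayN a)⁻¹ • (crossL a + (1 / 2 : ℝ) • (crossL a).comp (crossL a))

/-- The angular velocity (right logarithmic derivative) of `cayR`. -/
noncomputable def cayE (a : Fin 3 → ℝ) : (Fin 3 → ℝ) →L[ℝ] (Fin 3 → ℝ) :=
  (cayN a)⁻¹ • (ContinuousLinearMap.id ℝ (Fin 3 → ℝ) + (1 / 2 : ℝ) • crossL a)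

/-- The inverse of `cayE a`. -/
noncomputable def cayF (a b : Fin 3 → ℝ) : Fin 3 → ℝ :=
  b - (1 / 2 : ℝ) • (a ⨯₃ b) + ((a ⬝ᵥ b) / 4) • a

theorem cayE_apply (a b : Fin 3 → ℝ) :
    cayE a b = (cayN a)⁻¹ • (b + (1 / 2 : ℝ) • (a ⨯₃ b)) := rfl

theorem cayN_eq (a : Fin 3 → ℝ) : cayN a = 1 + (a 0 * a 0 + a 1 * a 1 + a 2 * a 2) / 4 := by
  rw [cayN, dotProduct, Fin.sum_univ_three]

theorem cayN_ne (a : Fin 3 → ℝ) : cayN a ≠ 0 := (cayN_pos a).ne'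

/-- components of `cayE` -/
theorem cayE_comp (a b : Fin 3 → ℝ) : cayE a b =
    ![(cayN a)⁻¹ * (b 0 + 1 / 2 * (a 1 * b 2 - a 2 * b 1)),
      (cayN a)⁻¹ * (b 1 + 1 / 2 * (a 2 * b 0 - a 0 * b 2)),
      (cayN a)⁻¹ * (b 2 + 1 / 2 * (a 0 * b 1 - a 1 * b 0))] := by
  rw [cayE_apply, cross_apply]
  ext i
  fin_cases i <;> simp only [Matrix.cons_val_zero, Matrix.cons_val_one, Matrix.cons_val,
    Fin.zero_eta, Fin.mk_one, Fin.reduceFinMk, Pi.add_apply, Pi.smul_apply, smul_eq_mul]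

theorem cayF_cayE (a b : Fin 3 → ℝ) : cayF a (cayE a b) = b := by
  have hN := cayN_ne a
  rw [cayF, cayE_comp, cross_apply, dotProduct, Fin.sum_univ_three]
  ext i
  fin_cases i <;> simp only [Matrix.cons_val_zero, Matrix.cons_val_one, Matrix.cons_val,
    Fin.zero_eta, Fin.mk_one, Fin.reduceFinMk, Pi.add_apply, Pi.sub_apply, Pi.smul_apply,
    smul_eq_mul] <;>
  · field_simp
    rw [cayN_eq]
    ring

/-! ### Derivatives -/

theorem cayN_contDiff {n : WithTop ℕ∞} : ContDiff ℝ n cayN := by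
  have h : cayN = fun a : Fin 3 → ℝ => 1 + (a 0 * a 0 + a 1 * a 1 + a 2 * a 2) / 4 :=
    funext cayN_eq
  rw [h]
  fun_prop

theorem cayN_inv_contDiff {n : WithTop ℕ∞} : ContDiff ℝ n (fun a => (cayN a)⁻¹) :=
  cayN_contDiff.inv cayN_ne

theorem crossL_contDiff {n : WithTop ℕ∞} : ContDiff ℝ n (fun a => crossL a) := crossL.contDiff

theorem cayE_contDiff {n : WithTop ℕ∞} : ContDiff ℝ n cayE := by
  unfold cayE
  exact cayN_inv_contDiff.smul (contDiff_const.add (crossL_contDiff.const_smul (1 / 2 : ℝ)))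

end Pool.Agent.HS
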