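import Pool.Agent.H94.PT.M04
import Pool.Agent.H94.PT.M07
import Pool.Agent.H94.PT.M12

/-!
# The cometric formula and Riemannian submersions (project HS)

`LL X Y h p = X (Y h)` at `p` for vector fields `X`, `Y` and a function `h`.

* `comet`: if `X`, `Y` are gradient fields of the metric `G` near `p` (the covector fields
  `G X`, `G Y` are closed), then `Rm G p (X p) (Y p)` is
  `(XX|Y|² + YY|X|² - XY⟨X,Y⟩ - YX⟨X,Y⟩)/2 + (|d⟨X,Y⟩|² - ⟨d|X|²,d|Y|²⟩)/4 - (3/4)|[X,Y]|²`
  (formula of Micheli, Michor and Mumford);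
* `Rm_le_of_submersion`: for a Riemannian submersion the curvature form of the base is at least the
  curvature form of the total space on the horizontal lifts (O'Neill).
-/

namespace Pool.Agent.HS

open Set Filter
open scoped ContDiff Topology

noncomputable section

variable {E : Type*} [NormedAddCommGroup E] [NormedSpace ℝ E]
  {F : Type*} [NormedAddCommGroup F] [NormedSpace ℝ F]
  {F' : Type*} [NormedAddCommGroup F'] [NormedSpace ℝ F']

/-- `X (Y h)` at `p` for vector fields `X`, `Y` and a function `h`. -/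
def LL (X Y : E → E) (h : E → ℝ) (p : E) : ℝ :=
  fderiv ℝ (fun q => fderiv ℝ h q (Y q)) p (X p)

theorem LL_eq {X Y : E → E} {h : E → ℝ} {p : E} (hh : ContDiffAt ℝ 2 h p)
    (hY : DifferentiableAt ℝ Y p) :
    LL X Y h p = dd h p (X p) (Y p) + fderiv ℝ h p (fderiv ℝ Y p (X p)) := by
  unfold LL
  rw [fderiv_clm_apply (ContDiffAt.diff_fderiv hh) hY, dd_eq hh]
  simp [add_comm]

theorem fderiv_clm_apply' {c : E → F →L[ℝ] F'} {d : E → F} {p : E}
    (hc : DifferentiableAt ℝ c p) (hd : DifferentiableAt ℝ d p) (u : E) :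
    fderiv ℝ (fun q => c q (d q)) p u = fderiv ℝ c p u (d p) + c p (fderiv ℝ d p u) := by
  rw [fderiv_clm_apply hc hd]
  simp [add_comm]

theorem dd_clm_apply {c : E → F →L[ℝ] F'} {d : E → F} {p : E}
    (hc : ContDiffAt ℝ 2 c p) (hd : ContDiffAt ℝ 2 d p) (u v : E) :
    dd (fun q => c q (d q)) p u v
      = dd c p u v (d p) + fderiv ℝ c p u (fderiv ℝ d p v) + fderiv ℝ c p v (fderiv ℝ d p u)
        + c p (dd d p u v) :=
  dd_bilin (ContinuousLinearMap.id ℝ (F →L[ℝ] F')) hc hd u v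

theorem dd_apply {c : E → F →L[ℝ] F'} {p : E} (hc : ContDiffAt ℝ 2 c p) (w : F) (u v : E) :
    dd (fun q => c q w) p u v = dd c p u v w :=
  dd_clm hc (ContinuousLinearMap.apply ℝ F' w) u v

theorem dd_symm_eval {G : E → E →L[ℝ] E →L[ℝ] ℝ} {p : E} (hG : ContDiffAt ℝ 2 G p)
    (hsymm : ∀ᶠ q in 𝓝 p, ∀ a b, G q a b = G q b a) (u v a b : E) :
    dd G p u v a b = dd G p u v b a := by
  have h : ∀ a b : E, dd G p u v a b = dd (fun q => G q a b) p u v := by
    intro a b
    rw [dd_apply (c := fun q => G q a) (hG.clm_apply contDiffAt_const) b, dd_apply hG a]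
  rw [h, h]
  apply dd_congr
  filter_upwards [hsymm] with q hq using hq a b

/-- The second derivative of a closed covector field is symmetric. -/
theorem dd_closed {a : E → E →L[ℝ] ℝ} {p : E} (ha : ContDiffAt ℝ 2 a p)
    (hcl : ∀ᶠ q in 𝓝 p, ∀ u v, fderiv ℝ a q u v = fderiv ℝ a q v u) (w u v : E) :
    dd a p w u v = dd a p w v u := by
  have h : ∀ u v : E, dd a p w u v = fderiv ℝ (fun q => fderiv ℝ a q u v) p w := by
    intro u v
    have hd : DifferentiableAt ℝ (fun q => fderiv ℝ a q u) p := diff_fderiv_apply ha u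
    rw [fderiv_clm_apply' hd (differentiableAt_const v)]
    simp [dd]
  rw [h, h]
  have e : (fun q => fderiv ℝ a q u v) =ᶠ[𝓝 p] fun q => fderiv ℝ a q v u := by
    filter_upwards [hcl] with q hq using hq u v
  rw [e.fderiv_eq]

/-- **Cometric formula.** The vectors `k1`, `k2`, `k3` are the gradients of `⟨X, Y⟩`, `|X|²`,
`|Y|²`. -/
theorem comet {G : E → E →L[ℝ] E →L[ℝ] ℝ} {X Y : E → E} {p : E}
    (hG : ContDiffAt ℝ 2 G p) (hsymm : ∀ᶠ q in 𝓝 p, ∀ a b, G q a b = G q b a)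
    (hinv : (G p).IsInvertible) (hX : ContDiffAt ℝ 2 X p) (hY : ContDiffAt ℝ 2 Y p)
    (ha : ∀ᶠ q in 𝓝 p, ∀ u v,
      fderiv ℝ (fun r => G r (X r)) q u v = fderiv ℝ (fun r => G r (X r)) q v u)
    (hb : ∀ᶠ q in 𝓝 p, ∀ u v,
      fderiv ℝ (fun r => G r (Y r)) q u v = fderiv ℝ (fun r => G r (Y r)) q v u)
    {k1 k2 k3 : E} (h1 : ∀ z, G p k1 z = fderiv ℝ (fun q => G q (X q) (Y q)) p z)
    (h2 : ∀ z, G p k2 z = fderiv ℝ (fun q => G q (X q) (X q)) p z)
    (h3 : ∀ z, G p k3 z = fderiv ℝ (fun q => G q (Y q) (Y q)) p z) :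
    Rm G p (X p) (Y p)
      = 1 / 2 * (LL X X (fun q => G q (Y q) (Y q)) p + LL Y Y (fun q => G q (X q) (X q)) p
          - LL X Y (fun q => G q (X q) (Y q)) p - LL Y X (fun q => G q (X q) (Y q)) p)
        + 1 / 4 * (G p k1 k1 - G p k2 k3)
        - 3 / 4 * G p (fderiv ℝ Y p (X p) - fderiv ℝ X p (Y p))
            (fderiv ℝ Y p (X p) - fderiv ℝ X p (Y p)) := by
  obtain ⟨a12, a11, a22, e12, e11, e22, hR⟩ := isCurv_Rm hG hinv (X p) (Y p)
  have dG := diff1 hG
  have dX := diff1 hX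
  have dY := diff1 hY
  have hp : ∀ a b, G p a b = G p b a := hsymm.self_of_nhds
  have hinj : Function.Injective (G p) := hinv.injective
  have sG : ∀ c a b, fderiv ℝ G p c a b = fderiv ℝ G p c b a := fderiv_symm_eval dG hsymm
  set x := X p with hx
  set y := Y p with hy
  set A := fderiv ℝ X p with hA
  set B := fderiv ℝ Y p with hB
  set a : E → E →L[ℝ] ℝ := fun r => G r (X r) with ha_def
  set b : E → E →L[ℝ] ℝ := fun r => G r (Y r) with hb_def
  have ca : ContDiffAt ℝ 2 a p := hG.clm_apply hX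
  have cb : ContDiffAt ℝ 2 b p := hG.clm_apply hY
  -- first derivatives
  have fa : ∀ u v, fderiv ℝ a p u v = fderiv ℝ G p u x v + G p (A u) v := by
    intro u v
    rw [ha_def, fderiv_clm_apply' dG dX]
    rfl
  have fb : ∀ u v, fderiv ℝ b p u v = fderiv ℝ G p u y v + G p (B u) v := by
    intro u v
    rw [hb_def, fderiv_clm_apply' dG dY]
    rfl
  have sa : ∀ u v, fderiv ℝ G p u x v + G p (A u) v = fderiv ℝ G p v x u + G p (A v) u := by
    intro u v
    rw [← fa, ← fa]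
    exact ha.self_of_nhds u v
  have sb : ∀ u v, fderiv ℝ G p u y v + G p (B u) v = fderiv ℝ G p v y u + G p (B v) u := by
    intro u v
    rw [← fb, ← fb]
    exact hb.self_of_nhds u v
  -- gradients
  have f12 : ∀ z, fderiv ℝ (fun q => G q (X q) (Y q)) p z
      = fderiv ℝ G p z x y + G p (A z) y + G p x (B z) := fun z => fderiv_bil dG dX dY z
  have f11 : ∀ z, fderiv ℝ (fun q => G q (X q) (X q)) p z
      = fderiv ℝ G p z x x + G p (A z) x + G p x (A z) := fun z => fderiv_bil dG dX dX z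
  have f22 : ∀ z, fderiv ℝ (fun q => G q (Y q) (Y q)) p z
      = fderiv ℝ G p z y y + G p (B z) y + G p y (B z) := fun z => fderiv_bil dG dY dY z
  have g1 : k1 = (2 : ℝ) • a12 + (A y + B x) := by
    apply hinj
    ext z
    rw [h1, f12]
    have e := e12 z
    unfold kos at e
    have s1 := sa z y
    have s2 := sb z x
    have s3 := hp x (B z)
    have s4 := sG z y x
    simp only [map_add, map_smul, _root_.add_apply, _root_.smul_apply, smul_eq_mul]
    linarith
  have g2 : k2 = (2 : ℝ) • a11 + (2 : ℝ) • A x := by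
    apply hinj
    ext z
    rw [h2, f11]
    have e := e11 z
    unfold kos at e
    have s1 := sa z x
    have s3 := hp x (A z)
    simp only [map_add, map_smul, _root_.add_apply, _root_.smul_apply, smul_eq_mul]
    linarith
  have g3 : k3 = (2 : ℝ) • a22 + (2 : ℝ) • B y := by
    apply hinj
    ext z
    rw [h3, f22]
    have e := e22 z
    unfold kos at e
    have s1 := sb z y
    have s3 := hp y (B z)
    simp only [map_add, map_smul, _root_.add_apply, _root_.smul_apply, smul_eq_mul]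
    linarith
  -- second derivatives
  have c12 : ContDiffAt ℝ 2 (fun q => G q (X q) (Y q)) p := ca.clm_apply hY
  have c11 : ContDiffAt ℝ 2 (fun q => G q (X q) (X q)) p := ca.clm_apply hX
  have c22 : ContDiffAt ℝ 2 (fun q => G q (Y q) (Y q)) p := cb.clm_apply hY
  have da : ∀ u v w, dd a p u v w = dd G p u v x w + fderiv ℝ G p u (A v) w
      + fderiv ℝ G p v (A u) w + G p (dd X p u v) w := by
    intro u v w
    rw [ha_def, dd_clm_apply hG hX]
    rfl
  have db : ∀ u v w, dd b p u v w = dd G p u v y w + fderiv ℝ G p u (B v) w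
      + fderiv ℝ G p v (B u) w + G p (dd Y p u v) w := by
    intro u v w
    rw [hb_def, dd_clm_apply hG hY]
    rfl
  have d12 : ∀ u v, dd (fun q => G q (X q) (Y q)) p u v = dd a p u v y
      + fderiv ℝ a p u (B v) + fderiv ℝ a p v (B u) + G p x (dd Y p u v) := fun u v =>
    dd_clm_apply ca hY u v
  have d11 : ∀ u v, dd (fun q => G q (X q) (X q)) p u v = dd a p u v x
      + fderiv ℝ a p u (A v) + fderiv ℝ a p v (A u) + G p x (dd X p u v) := fun u v =>
    dd_clm_apply ca hX u v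
  have d22 : ∀ u v, dd (fun q => G q (Y q) (Y q)) p u v = dd b p u v y
      + fderiv ℝ b p u (B v) + fderiv ℝ b p v (B u) + G p y (dd Y p u v) := fun u v =>
    dd_clm_apply cb hY u v
  have L22 : LL X X (fun q => G q (Y q) (Y q)) p = dd (fun q => G q (Y q) (Y q)) p x x
      + fderiv ℝ (fun q => G q (Y q) (Y q)) p (A x) := LL_eq c22 dX
  have L11 : LL Y Y (fun q => G q (X q) (X q)) p = dd (fun q => G q (X q) (X q)) p y y
      + fderiv ℝ (fun q => G q (X q) (X q)) p (B y) := LL_eq c11 dY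
  have L12 : LL X Y (fun q => G q (X q) (Y q)) p = dd (fun q => G q (X q) (Y q)) p x y
      + fderiv ℝ (fun q => G q (X q) (Y q)) p (B x) := LL_eq c12 dY
  have L21 : LL Y X (fun q => G q (X q) (Y q)) p = dd (fun q => G q (X q) (Y q)) p y x
      + fderiv ℝ (fun q => G q (X q) (Y q)) p (A y) := LL_eq c12 dX
  have hsec : sec2 G p x y = dd G p x y x y - (dd G p x x y y + dd G p y y x x) / 2 := by
    unfold sec2
    rw [dd_eq hG, dd_eq hG, dd_eq hG]
  -- closedness, second order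
  have cl1 : dd a p y y x = dd a p x y y := by
    rw [dd_closed ca ha y y x, dd_comm ca y x]
  have cl2 : dd b p x x y = dd b p x y x := dd_closed cb hb x x y
  have cY : dd (fun q => G q (X q) (Y q)) p y x = dd (fun q => G q (X q) (Y q)) p x y :=
    dd_comm c12 y x
  have sxy : dd G p x y y x = dd G p x y x y := dd_symm_eval hG hsymm x y y x
  rw [hR, hsec, L22, L11, L12, L21, cY, d22, d11, d12, f22, f11, f12, f12, g1, g2, g3]
  have m1 := da y y x
  have m2 := da x y y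
  have m3 := db x x y
  have m4 := db x y x
  have n1 := e12 (A y + B x)
  have n2 := e11 (B y)
  have n3 := e22 (A x)
  unfold kos at n1 n2 n3
  have q1 := sb (A x) y
  have q2 := sa (B y) x
  have q3 := sa (B x) y
  have q4 := sb (B x) x
  have q5 := sa (A y) y
  have q6 := sb (A y) x
  have r1 := fb x (B x)
  have r2 := fa y (A y)
  have r3 := fa x (B y)
  have r4 := fa y (B x)
  simp only [map_add, map_smul, map_sub, _root_.add_apply, _root_.sub_apply, _root_.smul_apply,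
    smul_eq_mul] at n1 n2 n3 ⊢
  have p1 := hp (dd Y p x x) y
  have p2 := hp (dd X p y y) x
  have p3 := hp (dd Y p x y) x
  have p4 := hp (A y) (B x)
  have p5 := hp a12 (A y)
  have p6 := hp a12 (B x)
  have p7 := hp (A x) (B y)
  have p8 := hp a22 (A x)
  have p9 := hp a11 (B y)
  have p10 := hp (B (A x)) y
  have p11 := hp (A (B y)) x
  have p12 := hp (B (B x)) x
  have p13 := hp (B (A y)) x
  have t1 := sG (B x) y x
  have t2 := sG (A y) y x
  have t3 := sG x (B x) y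
  have t4 := sG y (A y) x
  have t5 := sG x (B y) x
  have t6 := sG y (B x) x
  have t7 := sG x (A y) y
  have t8 := sG y (A x) y
  linarith

/-! ### Riemannian submersions -/

theorem contDiffAt_sharp [FiniteDimensional ℝ E] {G : E → E →L[ℝ] E →L[ℝ] ℝ}
    {α : E → E →L[ℝ] ℝ} {p : E} {n : ℕ∞ω} (hG : ContDiffAt ℝ n G p)
    (hinv : (G p).IsInvertible) (hα : ContDiffAt ℝ n α p) :
    ContDiffAt ℝ n (fun q => sharp (G q) (α q)) p := by
  have : CompleteSpace E := FiniteDimensional.complete ℝ E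
  obtain ⟨e, he⟩ := hinv
  have h1 : ContDiffAt ℝ n (ContinuousLinearMap.inverse (R := ℝ) (M := E) (M₂ := E →L[ℝ] ℝ))
      (G p) := by
    rw [← he]
    exact contDiffAt_map_inverse e
  exact (h1.comp p hG).clm_apply hα

/-- Iterated derivatives of functions which come from the base. -/
theorem LL_submersion {π : E → F} {p : E} (hπ : ContDiffAt ℝ 3 π p) {XE YE : E → E}
    {XF YF : F → F} {hE : E → ℝ} {hF : F → ℝ} (hh : hE =ᶠ[𝓝 p] fun q => hF (π q))
    (hFc : ContDiffAt ℝ 2 hF (π p)) (hYF : DifferentiableAt ℝ YF (π p))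
    (hX : fderiv ℝ π p (XE p) = XF (π p))
    (hY : ∀ᶠ q in 𝓝 p, fderiv ℝ π q (YE q) = YF (π q)) :
    LL XE YE hE p = LL XF YF hF (π p) := by
  have hπ2 : ContDiffAt ℝ 2 π p := hπ.of_le (by norm_num)
  have hπc : Tendsto π (𝓝 p) (𝓝 (π p)) := (diff1 hπ2).continuousAt
  have hk : DifferentiableAt ℝ (fun r => fderiv ℝ hF r (YF r)) (π p) :=
    (ContDiffAt.diff_fderiv hFc).clm_apply hYF
  have e : (fun q => fderiv ℝ hE q (YE q)) =ᶠ[𝓝 p]
      fun q => (fun r => fderiv ℝ hF r (YF r)) (π q) := by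
    filter_upwards [hh.fderiv (𝕜 := ℝ), diff_ev hπ2, hπc.eventually (diff_ev hFc), hY]
      with q h1 h2 h3 h4
    rw [h1]
    have h5 : fderiv ℝ (fun q => hF (π q)) q = (fderiv ℝ hF (π q)).comp (fderiv ℝ π q) :=
      fderiv_comp q h3 h2
    rw [h5, ContinuousLinearMap.comp_apply, h4]
  unfold LL
  rw [e.fderiv_eq]
  have h6 : fderiv ℝ (fun q => (fun r => fderiv ℝ hF r (YF r)) (π q)) p
      = (fderiv ℝ (fun r => fderiv ℝ hF r (YF r)) (π p)).comp (fderiv ℝ π p) :=
    fderiv_comp p hk (diff1 hπ2)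
  rw [h6, ContinuousLinearMap.comp_apply, hX]

/-- Derivative of the relation between lifted fields. -/
theorem fderiv_lift {π : E → F} {p : E} (hπ : ContDiffAt ℝ 3 π p) {YE : E → E} {YF : F → F}
    (hYE : DifferentiableAt ℝ YE p) (hYF : DifferentiableAt ℝ YF (π p))
    (hY : ∀ᶠ q in 𝓝 p, fderiv ℝ π q (YE q) = YF (π q)) (u : E) :
    fderiv ℝ (fderiv ℝ π) p u (YE p) + fderiv ℝ π p (fderiv ℝ YE p u)
      = fderiv ℝ YF (π p) (fderiv ℝ π p u) := by
  have hπ2 : ContDiffAt ℝ 2 π p := hπ.of_le (by norm_num)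
  have h1 : (fun q => fderiv ℝ π q (YE q)) =ᶠ[𝓝 p] fun q => YF (π q) := hY
  have h2 : fderiv ℝ (fun q => YF (π q)) p = (fderiv ℝ YF (π p)).comp (fderiv ℝ π p) :=
    fderiv_comp p hYF (diff1 hπ2)
  rw [← fderiv_clm_apply' (ContDiffAt.diff_fderiv hπ2) hYE, h1.fderiv_eq, h2,
    ContinuousLinearMap.comp_apply]

/-- The horizontal lifts form a Riemannian submersion structure for `π : (E, G) → (F, g)` at `q`:
every `v` in `F` has a lift `z` with `G z e = g v (dπ e)` for all `e`. -/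
def IsSubm (G : E → E →L[ℝ] E →L[ℝ] ℝ) (g : F → F →L[ℝ] F →L[ℝ] ℝ) (π : E → F) (q : E) : Prop :=
  ∀ v : F, ∃ z : E, fderiv ℝ π q z = v ∧ ∀ e, G q z e = g (π q) v (fderiv ℝ π q e)

/-- **O'Neill's inequality**: under a Riemannian submersion the curvature form of the base is at
least the curvature form of the total space on the horizontal lifts. -/
theorem Rm_le_of_submersion [FiniteDimensional ℝ E] [FiniteDimensional ℝ F]
    {G : E → E →L[ℝ] E →L[ℝ] ℝ} {g : F → F →L[ℝ] F →L[ℝ] ℝ} {π : E → F} {p : E}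
    (hG : ContDiffAt ℝ 2 G p) (hg : ContDiffAt ℝ 2 g (π p)) (hπ : ContDiffAt ℝ 3 π p)
    (hGi : ∀ᶠ q in 𝓝 p, IsInner (G q)) (hgi : ∀ᶠ q in 𝓝 (π p), IsInner (g q))
    (H : ∀ᶠ q in 𝓝 p, IsSubm G g π q) {x y : F} {x' y' : E}
    (hx : ∀ e, G p x' e = g (π p) x (fderiv ℝ π p e))
    (hy : ∀ e, G p y' e = g (π p) y (fderiv ℝ π p e)) :
    Rm G p x' y' ≤ Rm g (π p) x y := by
  have hπ2 : ContDiffAt ℝ 2 π p := hπ.of_le (by norm_num)
  have hπc : Tendsto π (𝓝 p) (𝓝 (π p)) := (diff1 hπ2).continuousAt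
  have hdπ : ContDiffAt ℝ 2 (fderiv ℝ π) p := hπ.fderiv_right (by norm_num)
  have iG := hGi.self_of_nhds
  have ig := hgi.self_of_nhds
  have invG := iG.invertible
  have invg := ig.invertible
  -- the lifted gradient fields
  have key : ∀ (α : F →L[ℝ] ℝ), ∃ (XE : E → E) (XF : F → F),
      ContDiffAt ℝ 2 XE p ∧ ContDiffAt ℝ 2 XF (π p) ∧
      (∀ᶠ q in 𝓝 p, fderiv ℝ π q (XE q) = XF (π q)) ∧
      (∀ᶠ q in 𝓝 p, G q (XE q) = α.comp (fderiv ℝ π q)) ∧
      (∀ᶠ r in 𝓝 (π p), g r (XF r) = α) := by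
    intro α
    refine ⟨fun q => sharp (G q) (α.comp (fderiv ℝ π q)), fun r => sharp (g r) α,
      contDiffAt_sharp hG invG ((ContinuousLinearMap.compL ℝ E F ℝ α).contDiff.contDiffAt.comp p
        hdπ), contDiffAt_sharp hg invg contDiffAt_const, ?_, ?_, ?_⟩
    · filter_upwards [hGi, hπc.eventually hgi, H] with q h1 h2 h3
      obtain ⟨z, hz1, hz2⟩ := h3 (sharp (g (π q)) α)
      have h4 : sharp (G q) (α.comp (fderiv ℝ π q)) = z := by
        apply sharp_eq_of h1
        intro e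
        rw [hz2, sharp_spec h2]
        rfl
      rw [h4, hz1]
    · filter_upwards [hGi] with q h1
      exact sharp_spec h1 _
    · filter_upwards [hgi] with q h1
      exact sharp_spec h1 _
  obtain ⟨XE, XF, cXE, cXF, lX, aE, aF⟩ := key (g (π p) x)
  obtain ⟨YE, YF, cYE, cYF, lY, bE, bF⟩ := key (g (π p) y)
  have hXE : XE p = x' := by
    apply iG.injective
    rw [aE.self_of_nhds]
    ext e
    rw [hx]
    rfl
  have hYE : YE p = y' := by
    apply iG.injective
    rw [bE.self_of_nhds]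
    ext e
    rw [hy]
    rfl
  have hXF : XF (π p) = x := ig.injective aF.self_of_nhds
  have hYF : YF (π p) = y := ig.injective bF.self_of_nhds
  -- functions
  have fcn : ∀ {α β : F →L[ℝ] ℝ} {X Y : E → E} {X₀ Y₀ : F → F},
      (∀ᶠ q in 𝓝 p, fderiv ℝ π q (Y q) = Y₀ (π q)) →
      (∀ᶠ q in 𝓝 p, G q (X q) = α.comp (fderiv ℝ π q)) →
      (∀ᶠ r in 𝓝 (π p), g r (X₀ r) = α) →
      (fun q => G q (X q) (Y q)) =ᶠ[𝓝 p] fun q => (fun r => g r (X₀ r) (Y₀ r)) (π q) := by
    intro α β X Y X₀ Y₀ h1 h2 h3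
    filter_upwards [h1, h2, hπc.eventually h3] with q k1 k2 k3
    rw [k2, k3, ContinuousLinearMap.comp_apply, k1]
  have f12 := fcn (β := g (π p) y) lY aE aF
  have f11 := fcn (β := g (π p) y) lX aE aF
  have f22 := fcn (β := g (π p) y) lY bE bF
  have c12 : ContDiffAt ℝ 2 (fun r => g r (XF r) (YF r)) (π p) := (hg.clm_apply cXF).clm_apply cYF
  have c11 : ContDiffAt ℝ 2 (fun r => g r (XF r) (XF r)) (π p) := (hg.clm_apply cXF).clm_apply cXF
  have c22 : ContDiffAt ℝ 2 (fun r => g r (YF r) (YF r)) (π p) := (hg.clm_apply cYF).clm_apply cYF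
  -- gradients
  have grad : ∀ {hE : E → ℝ} {hF : F → ℝ}, hE =ᶠ[𝓝 p] (fun q => hF (π q)) →
      ContDiffAt ℝ 2 hF (π p) → ∃ (k : E) (k₀ : F), (∀ z, G p k z = fderiv ℝ hE p z) ∧
        (∀ z, g (π p) k₀ z = fderiv ℝ hF (π p) z) ∧ fderiv ℝ π p k = k₀ ∧
        ∀ e, G p k e = g (π p) k₀ (fderiv ℝ π p e) := by
    intro hE hF h1 h2
    obtain ⟨z, hz1, hz2⟩ := H.self_of_nhds (sharp (g (π p)) (fderiv ℝ hF (π p)))
    refine ⟨z, _, ?_, fun w => sharp_apply ig _ w, hz1, hz2⟩
    intro w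
    have h3 : fderiv ℝ (fun q => hF (π q)) p = (fderiv ℝ hF (π p)).comp (fderiv ℝ π p) :=
      fderiv_comp p (diff1 h2) (diff1 hπ2)
    rw [hz2, sharp_apply ig, h1.fderiv_eq, h3]
    rfl
  obtain ⟨k1, l1, u1, v1, w1, z1⟩ := grad f12 c12
  obtain ⟨k2, l2, u2, v2, w2, z2⟩ := grad f11 c11
  obtain ⟨k3, l3, u3, v3, w3, z3⟩ := grad f22 c22
  -- closedness
  have clE : ∀ {α : F →L[ℝ] ℝ} {X : E → E},
      (∀ᶠ q in 𝓝 p, G q (X q) = α.comp (fderiv ℝ π q)) →
      ∀ᶠ q in 𝓝 p, ∀ u v,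
        fderiv ℝ (fun r => G r (X r)) q u v = fderiv ℝ (fun r => G r (X r)) q v u := by
    intro α X h
    have h' : (fun r => G r (X r)) =ᶠ[𝓝 p] fun r => α.comp (fderiv ℝ π r) := h
    have e1 : ∀ᶠ q in 𝓝 p, ContDiffAt ℝ 3 π q := hπ.eventually (by decide)
    filter_upwards [h'.fderiv (𝕜 := ℝ), e1] with q hq hq1 u v
    have hq2 : ContDiffAt ℝ 2 π q := hq1.of_le (by norm_num)
    rw [hq]
    have h5 : ∀ u v, fderiv ℝ (fun r => α.comp (fderiv ℝ π r)) q u v
        = α (fderiv ℝ (fderiv ℝ π) q u v) := by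
      intro u v
      have h6 : HasFDerivAt (fun r => α.comp (fderiv ℝ π r))
          ((ContinuousLinearMap.compL ℝ E F ℝ α).comp (fderiv ℝ (fderiv ℝ π) q)) q :=
        (ContinuousLinearMap.compL ℝ E F ℝ α).hasFDerivAt.comp q
          (ContDiffAt.diff_fderiv hq2).hasFDerivAt
      rw [h6.fderiv]
      rfl
    rw [h5, h5, fderiv2_symm hq2]
  have clF : ∀ {α : F →L[ℝ] ℝ} {X : F → F}, (∀ᶠ r in 𝓝 (π p), g r (X r) = α) →
      ∀ᶠ q in 𝓝 (π p), ∀ u v,
        fderiv ℝ (fun r => g r (X r)) q u v = fderiv ℝ (fun r => g r (X r)) q v u := by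
    intro α X h
    have h' : (fun r => g r (X r)) =ᶠ[𝓝 (π p)] fun _ => α := h
    filter_upwards [h'.fderiv (𝕜 := ℝ)] with q hq u v
    rw [hq]
    simp
  -- the two formulas
  have RE := comet (X := XE) (Y := YE) hG (hGi.mono fun q hq => hq.symm) invG cXE cYE (clE aE)
    (clE bE) u1 u2 u3
  have RF := comet (X := XF) (Y := YF) hg (hgi.mono fun q hq => hq.symm) invg cXF cYF (clF aF)
    (clF bF) v1 v2 v3
  rw [LL_submersion hπ f22 c22 (diff1 cXF) lX.self_of_nhds lX,
    LL_submersion hπ f11 c11 (diff1 cYF) lY.self_of_nhds lY,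
    LL_submersion hπ f12 c12 (diff1 cYF) lX.self_of_nhds lY,
    LL_submersion hπ f12 c12 (diff1 cXF) lY.self_of_nhds lX] at RE
  have n1 : G p k1 k1 = g (π p) l1 l1 := by rw [z1, w1]
  have n2 : G p k2 k3 = g (π p) l2 l3 := by rw [z2, w3]
  rw [n1, n2] at RE
  set ZE := fderiv ℝ YE p (XE p) - fderiv ℝ XE p (YE p) with hZE
  set ZF := fderiv ℝ YF (π p) (XF (π p)) - fderiv ℝ XF (π p) (YF (π p)) with hZF
  have hZ : fderiv ℝ π p ZE = ZF := by
    have e1 := fderiv_lift hπ (diff1 cYE) (diff1 cYF) lY (XE p)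
    have e2 := fderiv_lift hπ (diff1 cXE) (diff1 cXF) lX (YE p)
    rw [lX.self_of_nhds] at e1
    rw [lY.self_of_nhds, fderiv2_symm hπ2] at e2
    rw [hZE, hZF, map_sub, ← e1, ← e2]
    abel
  obtain ⟨z, hz1, hz2⟩ := H.self_of_nhds ZF
  have hb : g (π p) ZF ZF ≤ G p ZE ZE := by
    have e1 : G p z ZE = g (π p) ZF ZF := by rw [hz2, hZ]
    have e2 : G p z z = g (π p) ZF ZF := by rw [hz2, hz1]
    have e3 : G p ZE z = G p z ZE := iG.symm _ _
    have e4 : 0 ≤ G p (ZE - z) (ZE - z) := by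
      by_cases h0 : ZE - z = 0
      · rw [h0]; simp
      · exact (iG.pos _ h0).le
    simp only [map_sub, _root_.sub_apply] at e4
    linarith
  rw [hXE, hYE] at RE
  rw [hXF, hYF] at RF
  rw [RE, RF]
  linarith

end

end Pool.Agent.HS
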