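import Pool.Agent.H94.PT.HS.Pull
import Pool.Agent.H94.PT.M04

/-!
# Regularity and positivity of the local metrics (project HS, block REG)

Smoothness, symmetry and positivity of `GP h A q`, `GE h A q` (any base space `B`) and of
`qk r κ`.  Hypotheses on `q u : V3 →L V3`: symmetric (`∀ x y, x ⬝ᵥ q y = q x ⬝ᵥ y`) and positive
(`∀ x, x ≠ 0 → 0 < x ⬝ᵥ q x`).
-/

set_option maxSynthPendingDepth 3

namespace Pool.Agent.HS

open Matrix Topology Filter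

variable {B : Type*} [NormedAddCommGroup B] [NormedSpace ℝ B]

/-! ### Linear algebra of symmetric positive operators of `V3` -/

/-- An injective operator of `V3` is invertible. -/
theorem reg_isInvertible_of_injective {q : V3 →L[ℝ] V3} (h : Function.Injective q) :
    q.IsInvertible := by
  have h1 : Function.Injective (q : V3 →ₗ[ℝ] V3) := h
  refine ⟨(LinearEquiv.ofInjectiveEndo (q : V3 →ₗ[ℝ] V3) h1).toContinuousLinearEquiv, ?_⟩
  ext x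
  rfl

theorem reg_injective_of_pos {q : V3 →L[ℝ] V3} (h : ∀ x : V3, x ≠ 0 → 0 < x ⬝ᵥ q x) :
    Function.Injective q := by
  intro x y hxy
  by_contra hne
  have h1 := h (x - y) (sub_ne_zero.2 hne)
  rw [map_sub, hxy, sub_self, dotProduct_zero] at h1
  exact lt_irrefl _ h1

theorem reg_isInvertible_of_pos {q : V3 →L[ℝ] V3} (h : ∀ x : V3, x ≠ 0 → 0 < x ⬝ᵥ q x) :
    q.IsInvertible :=
  reg_isInvertible_of_injective (reg_injective_of_pos h)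

theorem reg_apply_inverse {q : V3 →L[ℝ] V3} (h : q.IsInvertible) (x : V3) :
    q (ContinuousLinearMap.inverse q x) = x := by
  obtain ⟨e, rfl⟩ := h
  rw [ContinuousLinearMap.inverse_equiv]
  exact e.apply_symm_apply x

theorem reg_inverse_apply {q : V3 →L[ℝ] V3} (h : q.IsInvertible) (x : V3) :
    ContinuousLinearMap.inverse q (q x) = x := by
  obtain ⟨e, rfl⟩ := h
  rw [ContinuousLinearMap.inverse_equiv]
  exact e.symm_apply_apply x

theorem reg_inverse_symm {q : V3 →L[ℝ] V3} (hs : ∀ x y : V3, x ⬝ᵥ q y = q x ⬝ᵥ y)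
    (hi : q.IsInvertible) (x y : V3) :
    x ⬝ᵥ ContinuousLinearMap.inverse q y = ContinuousLinearMap.inverse q x ⬝ᵥ y := by
  conv_lhs => rw [← reg_apply_inverse hi x]
  conv_rhs => rw [← reg_apply_inverse hi y]
  rw [hs]

theorem reg_inverse_pos {q : V3 →L[ℝ] V3} (hs : ∀ x y : V3, x ⬝ᵥ q y = q x ⬝ᵥ y)
    (hp : ∀ x : V3, x ≠ 0 → 0 < x ⬝ᵥ q x) (x : V3) (hx : x ≠ 0) :
    0 < x ⬝ᵥ ContinuousLinearMap.inverse q x := by
  have hi := reg_isInvertible_of_pos hp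
  have h0 : ContinuousLinearMap.inverse q x ≠ 0 := by
    intro h
    apply hx
    rw [← reg_apply_inverse hi x, h, map_zero]
  have h1 := hp _ h0
  rw [hs, reg_apply_inverse hi] at h1
  exact h1

/-- The operator whose inverse is `Sw q w`. -/
noncomputable def regM (q : V3 →L[ℝ] V3) (w : V3) : V3 →L[ℝ] V3 :=
  ContinuousLinearMap.id ℝ V3 + (Cw w).comp ((ContinuousLinearMap.inverse q).comp (crossL w))

theorem reg_Sw_eq (q : V3 →L[ℝ] V3) (w : V3) : Sw q w = ContinuousLinearMap.inverse (regM q w) := rfl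

theorem reg_Mw_apply (q : V3 →L[ℝ] V3) (w x : V3) :
    regM q w x = x + ContinuousLinearMap.inverse q (w ⨯₃ x) ⨯₃ w := rfl

theorem reg_cross_dot_swap (u w z : V3) : (u ⨯₃ w) ⬝ᵥ z = u ⬝ᵥ (w ⨯₃ z) := by
  rw [cross_apply, cross_apply, dotProduct, dotProduct, Fin.sum_univ_three, Fin.sum_univ_three]
  simp only [Matrix.cons_val_zero, Matrix.cons_val_one, Matrix.cons_val]
  ring

theorem reg_dot_Mw (q : V3 →L[ℝ] V3) (w x y : V3) :
    y ⬝ᵥ regM q w x = y ⬝ᵥ x + (w ⨯₃ y) ⬝ᵥ ContinuousLinearMap.inverse q (w ⨯₃ x) := by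
  rw [reg_Mw_apply, dotProduct_add, dotProduct_comm y (_ ⨯₃ w), reg_cross_dot_swap,
    dotProduct_comm (w ⨯₃ y)]

theorem reg_Mw_symm {q : V3 →L[ℝ] V3} (hs : ∀ x y : V3, x ⬝ᵥ q y = q x ⬝ᵥ y)
    (hi : q.IsInvertible) (w x y : V3) : x ⬝ᵥ regM q w y = regM q w x ⬝ᵥ y := by
  rw [dotProduct_comm (regM q w x) y, reg_dot_Mw, reg_dot_Mw, reg_inverse_symm hs hi,
    dotProduct_comm x y, dotProduct_comm (ContinuousLinearMap.inverse q (w ⨯₃ x))]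

theorem reg_Mw_pos {q : V3 →L[ℝ] V3} (hs : ∀ x y : V3, x ⬝ᵥ q y = q x ⬝ᵥ y)
    (hp : ∀ x : V3, x ≠ 0 → 0 < x ⬝ᵥ q x) (w x : V3) (hx : x ≠ 0) : 0 < x ⬝ᵥ regM q w x := by
  rw [reg_dot_Mw]
  have h1 : 0 < x ⬝ᵥ x := by
    have h0 : 0 ≤ x ⬝ᵥ x := by
      rw [dotProduct]
      exact Finset.sum_nonneg fun i _ => mul_self_nonneg _
    rcases h0.lt_or_eq with h | h
    · exact h
    · exact absurd (dotProduct_self_eq_zero.1 h.symm) hx
  have h2 : 0 ≤ (w ⨯₃ x) ⬝ᵥ ContinuousLinearMap.inverse q (w ⨯₃ x) := by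
    rcases eq_or_ne (w ⨯₃ x) 0 with h | h
    · rw [h, map_zero, dotProduct_zero]
    · exact (reg_inverse_pos hs hp _ h).le
  linarith

theorem reg_Mw_isInvertible {q : V3 →L[ℝ] V3} (hs : ∀ x y : V3, x ⬝ᵥ q y = q x ⬝ᵥ y)
    (hp : ∀ x : V3, x ≠ 0 → 0 < x ⬝ᵥ q x) (w : V3) : (regM q w).IsInvertible :=
  reg_isInvertible_of_pos (reg_Mw_pos hs hp w)

theorem reg_Sw_symm {q : V3 →L[ℝ] V3} (hs : ∀ x y : V3, x ⬝ᵥ q y = q x ⬝ᵥ y)
    (hp : ∀ x : V3, x ≠ 0 → 0 < x ⬝ᵥ q x) (w x y : V3) : x ⬝ᵥ Sw q w y = Sw q w x ⬝ᵥ y := by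
  rw [reg_Sw_eq]
  exact reg_inverse_symm (reg_Mw_symm hs (reg_isInvertible_of_pos hp) w) (reg_Mw_isInvertible hs hp w) x y

theorem reg_Sw_pos {q : V3 →L[ℝ] V3} (hs : ∀ x y : V3, x ⬝ᵥ q y = q x ⬝ᵥ y)
    (hp : ∀ x : V3, x ≠ 0 → 0 < x ⬝ᵥ q x) (w x : V3) (hx : x ≠ 0) : 0 < x ⬝ᵥ Sw q w x := by
  rw [reg_Sw_eq]
  exact reg_inverse_pos (reg_Mw_symm hs (reg_isInvertible_of_pos hp) w) (reg_Mw_pos hs hp w) x hx

/-! ### Smoothness -/

theorem reg_contDiffAt_inverse {n : WithTop ℕ∞} {F : Type*} [NormedAddCommGroup F] [NormedSpace ℝ F]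
    {f : F → V3 →L[ℝ] V3} {p : F} (hf : ContDiffAt ℝ n f p) (hi : (f p).IsInvertible) :
    ContDiffAt ℝ n (fun x => ContinuousLinearMap.inverse (f x)) p := by
  obtain ⟨e, he⟩ := hi
  have h1 : ContDiffAt ℝ n (ContinuousLinearMap.inverse : (V3 →L[ℝ] V3) → V3 →L[ℝ] V3) (f p) := by
    rw [← he]
    exact contDiffAt_map_inverse e
  exact h1.comp p hf

theorem reg_contDiff_Cw {n : WithTop ℕ∞} : ContDiff ℝ n Cw := by
  unfold Cw
  exact (crossL.flip).contDiff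

/-- `(u, w) ↦ Sw (q u) w` is smooth. -/
theorem reg_contDiffAt_Sw {n : WithTop ℕ∞} {F : Type*} [NormedAddCommGroup F] [NormedSpace ℝ F]
    {q : F → V3 →L[ℝ] V3} {w : F → V3} {p : F} (hq : ContDiffAt ℝ n q p)
    (hw : ContDiffAt ℝ n w p) (hs : ∀ x y : V3, x ⬝ᵥ q p y = q p x ⬝ᵥ y)
    (hp : ∀ x : V3, x ≠ 0 → 0 < x ⬝ᵥ q p x) : ContDiffAt ℝ n (fun x => Sw (q x) (w x)) p := by
  have h1 : ContDiffAt ℝ n (fun x => regM (q x) (w x)) p := by
    unfold regM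
    refine contDiffAt_const.add (ContDiffAt.clm_comp ?_ (ContDiffAt.clm_comp ?_ ?_))
    · exact reg_contDiff_Cw.contDiffAt.comp p hw
    · exact reg_contDiffAt_inverse hq (reg_isInvertible_of_pos hp)
    · exact crossL_contDiff.contDiffAt.comp p hw
  exact reg_contDiffAt_inverse h1 (reg_Mw_isInvertible hs hp (w p))

theorem contDiffAt_UP {n : WithTop ℕ∞} {A : B → B →L[ℝ] V3} {p : B × V3}
    (hA : ContDiffAt ℝ n A p.1) : ContDiffAt ℝ n (UP A) p := by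
  unfold UP
  refine ContDiffAt.add (ContDiffAt.clm_comp ?_ contDiffAt_const)
    (ContDiffAt.clm_comp ?_ contDiffAt_const)
  · exact ContDiffAt.comp p hA contDiffAt_fst
  · exact ContDiffAt.comp p cayE_contDiff.contDiffAt contDiffAt_snd

theorem contDiffAt_DW {n : WithTop ℕ∞} {A : B → B →L[ℝ] V3} {p : B × V3}
    (hA : ContDiffAt ℝ n A p.1) : ContDiffAt ℝ n (DW A) p := by
  unfold DW
  refine ContDiffAt.add (ContDiffAt.clm_comp (ContDiffAt.clm_comp ?_ ?_) contDiffAt_const)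
    contDiffAt_const
  · exact ContDiffAt.comp p reg_contDiff_Cw.contDiffAt contDiffAt_snd
  · exact ContDiffAt.comp p hA contDiffAt_fst

theorem contDiffAt_GP {n : WithTop ℕ∞} {h : B → B →L[ℝ] B →L[ℝ] ℝ} {A : B → B →L[ℝ] V3}
    {q : B → V3 →L[ℝ] V3} {p : B × V3} (hh : ContDiffAt ℝ n h p.1) (hA : ContDiffAt ℝ n A p.1)
    (hq : ContDiffAt ℝ n q p.1) : ContDiffAt ℝ n (GP h A q) p := by
  unfold GP
  refine ContDiffAt.add (contDiffAt_bilinearComp ?_ contDiffAt_const contDiffAt_const)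
    (contDiffAt_bilinearComp contDiffAt_const (contDiffAt_UP hA)
      (ContDiffAt.clm_comp ?_ (contDiffAt_UP hA)))
  · exact ContDiffAt.comp p hh contDiffAt_fst
  · exact ContDiffAt.comp p hq contDiffAt_fst

theorem contDiffAt_GE {n : WithTop ℕ∞} {h : B → B →L[ℝ] B →L[ℝ] ℝ} {A : B → B →L[ℝ] V3}
    {q : B → V3 →L[ℝ] V3} {p : B × V3} (hh : ContDiffAt ℝ n h p.1) (hA : ContDiffAt ℝ n A p.1)
    (hq : ContDiffAt ℝ n q p.1) (hs : ∀ x y : V3, x ⬝ᵥ q p.1 y = q p.1 x ⬝ᵥ y)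
    (hp : ∀ x : V3, x ≠ 0 → 0 < x ⬝ᵥ q p.1 x) : ContDiffAt ℝ n (GE h A q) p := by
  unfold GE
  refine ContDiffAt.add (contDiffAt_bilinearComp ?_ contDiffAt_const contDiffAt_const)
    (contDiffAt_bilinearComp contDiffAt_const (contDiffAt_DW hA)
      (ContDiffAt.clm_comp ?_ (contDiffAt_DW hA)))
  · exact ContDiffAt.comp p hh contDiffAt_fst
  · refine reg_contDiffAt_Sw (q := fun p : B × V3 => q p.1) (w := fun p : B × V3 => p.2) ?_
      contDiffAt_snd hs hp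
    exact ContDiffAt.comp p hq contDiffAt_fst

/-! ### Symmetry and positivity -/

theorem GP_apply (h : B → B →L[ℝ] B →L[ℝ] ℝ) (A : B → B →L[ℝ] V3) (q : B → V3 →L[ℝ] V3)
    (p X Y : B × V3) :
    GP h A q p X Y = h p.1 X.1 Y.1
      + (A p.1 X.1 + cayE p.2 X.2) ⬝ᵥ q p.1 (A p.1 Y.1 + cayE p.2 Y.2) := rfl

theorem GE_apply (h : B → B →L[ℝ] B →L[ℝ] ℝ) (A : B → B →L[ℝ] V3) (q : B → V3 →L[ℝ] V3)
    (p X Y : B × V3) :
    GE h A q p X Y = h p.1 X.1 Y.1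
      + (A p.1 X.1 ⨯₃ p.2 + X.2) ⬝ᵥ Sw (q p.1) p.2 (A p.1 Y.1 ⨯₃ p.2 + Y.2) := rfl

theorem isInner_GP {h : B → B →L[ℝ] B →L[ℝ] ℝ} {A : B → B →L[ℝ] V3} {q : B → V3 →L[ℝ] V3}
    {p : B × V3} (hh : IsInner (h p.1)) (hs : ∀ x y : V3, x ⬝ᵥ q p.1 y = q p.1 x ⬝ᵥ y)
    (hp : ∀ x : V3, x ≠ 0 → 0 < x ⬝ᵥ q p.1 x) : IsInner (GP h A q p) := by
  refine ⟨fun X Y => ?_, ?_⟩
  · rw [GP_apply, GP_apply, hh.symm X.1 Y.1, hs, dotProduct_comm]
  · rintro ⟨x, ξ⟩ hX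
    rw [GP_apply]
    change 0 < h p.1 x x + (A p.1 x + cayE p.2 ξ) ⬝ᵥ q p.1 (A p.1 x + cayE p.2 ξ)
    have hq0 : ∀ z : V3, 0 ≤ z ⬝ᵥ q p.1 z := by
      intro z
      rcases eq_or_ne z 0 with rfl | hz
      · simp
      · exact (hp z hz).le
    rcases eq_or_ne x 0 with rfl | hx
    · have hξ : ξ ≠ 0 := by
        rintro rfl
        exact hX rfl
      have h1 : cayE p.2 ξ ≠ 0 := by
        intro h0
        apply hξ
        rw [← cayF_cayE p.2 ξ, h0]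
        simp [cayF]
      have h2 := hp (cayE p.2 ξ) h1
      simpa using h2
    · have h1 := hh.pos x hx
      have h2 := hq0 (A p.1 x + cayE p.2 ξ)
      linarith

theorem isInner_GE {h : B → B →L[ℝ] B →L[ℝ] ℝ} {A : B → B →L[ℝ] V3} {q : B → V3 →L[ℝ] V3}
    {p : B × V3} (hh : IsInner (h p.1)) (hs : ∀ x y : V3, x ⬝ᵥ q p.1 y = q p.1 x ⬝ᵥ y)
    (hp : ∀ x : V3, x ≠ 0 → 0 < x ⬝ᵥ q p.1 x) : IsInner (GE h A q p) := by
  refine ⟨fun X Y => ?_, ?_⟩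
  · rw [GE_apply, GE_apply, hh.symm X.1 Y.1, reg_Sw_symm hs hp, dotProduct_comm]
  · rintro ⟨x, c⟩ hX
    rw [GE_apply]
    change 0 < h p.1 x x + (A p.1 x ⨯₃ p.2 + c) ⬝ᵥ Sw (q p.1) p.2 (A p.1 x ⨯₃ p.2 + c)
    have hq0 : ∀ z : V3, 0 ≤ z ⬝ᵥ Sw (q p.1) p.2 z := by
      intro z
      rcases eq_or_ne z 0 with rfl | hz
      · simp
      · exact (reg_Sw_pos hs hp p.2 z hz).le
    rcases eq_or_ne x 0 with rfl | hx
    · have hc : c ≠ 0 := by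
        rintro rfl
        exact hX rfl
      have h2 := reg_Sw_pos hs hp p.2 c hc
      simpa using h2
    · have h1 := hh.pos x hx
      have h2 := hq0 (A p.1 x ⨯₃ p.2 + c)
      linarith

/-! ### The operator `qk r κ = r² (1 - (r²/3) κ)` -/

theorem reg_qk_apply (r : ℝ) (κ : B → M33) (u : B) (v : V3) :
    qk r κ u v = (r ^ 2) • (v - (r ^ 2 / 3) • (κ u *ᵥ v)) := by
  change ((r ^ 2) • ((1 : M33) - (r ^ 2 / 3) • κ u)) *ᵥ v = _
  rw [Matrix.smul_mulVec, Matrix.sub_mulVec, Matrix.one_mulVec, Matrix.smul_mulVec]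

theorem reg_qk_apply_mulVec (r : ℝ) (κ : B → M33) (u : B) (v : V3) :
    qk r κ u v = ((r ^ 2) • ((1 : M33) - (r ^ 2 / 3) • κ u)) *ᵥ v := rfl

theorem reg_dot_qk (r : ℝ) (κ : B → M33) (u : B) (x y : V3) :
    x ⬝ᵥ qk r κ u y = r ^ 2 * bf (1 - (r ^ 2 / 3) • κ u) x y := by
  rw [reg_qk_apply_mulVec, bf, Matrix.smul_mulVec, dotProduct_smul, smul_eq_mul]

theorem mulVec_symm {M : M33} (h : M.IsSymm) (x y : V3) : x ⬝ᵥ (M *ᵥ y) = (M *ᵥ x) ⬝ᵥ y := by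
  rw [Matrix.dotProduct_mulVec, ← Matrix.mulVec_transpose, h]

theorem reg_qk_symm {r : ℝ} {κ : B → M33} {u : B} (h : (κ u).IsSymm) (x y : V3) :
    x ⬝ᵥ qk r κ u y = qk r κ u x ⬝ᵥ y := by
  rw [reg_qk_apply, reg_qk_apply, dotProduct_smul, smul_dotProduct, dotProduct_sub, sub_dotProduct,
    dotProduct_smul, smul_dotProduct, mulVec_symm h]

theorem reg_qk_pos {r : ℝ} (hr : r ≠ 0) {κ : B → M33} {u : B}
    (h : ∀ v : V3, v ≠ 0 → 0 < bf (1 - (r ^ 2 / 3) • κ u) v v) (x : V3) (hx : x ≠ 0) :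
    0 < x ⬝ᵥ qk r κ u x := by
  rw [reg_dot_qk]
  exact mul_pos (by positivity) (h x hx)

/-- Positivity of `1 - (r²/3) κ` for small `r`. -/
theorem bf_one_sub_pos {r C : ℝ} {M : M33} (hM : ∀ a b, |M a b| ≤ C) (hr : r ^ 2 * C < 1)
    (v : V3) (hv : v ≠ 0) : 0 < bf (1 - (r ^ 2 / 3) • M) v v := by
  have hvv : 0 < v ⬝ᵥ v := by
    have h0 : 0 ≤ v ⬝ᵥ v := by
      rw [dotProduct]
      exact Finset.sum_nonneg fun i _ => mul_self_nonneg _
    rcases h0.lt_or_eq with h | h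
    · exact h
    · exact absurd (dotProduct_self_eq_zero.1 h.symm) hv
  have h1 : bf (1 - (r ^ 2 / 3) • M) v v = v ⬝ᵥ v - (r ^ 2 / 3) * (v ⬝ᵥ (M *ᵥ v)) := by
    rw [bf, Matrix.sub_mulVec, Matrix.one_mulVec, Matrix.smul_mulVec, dotProduct_sub,
      dotProduct_smul, smul_eq_mul]
  have h2 : v ⬝ᵥ (M *ᵥ v) = ∑ a, ∑ b, v a * (M a b * v b) := by
    rw [dotProduct]
    refine Finset.sum_congr rfl fun a _ => ?_
    rw [Matrix.mulVec, dotProduct, Finset.mul_sum]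
  have hC : 0 ≤ C := le_trans (abs_nonneg _) (hM 0 0)
  have h3 : v ⬝ᵥ (M *ᵥ v) ≤ 3 * C * (v ⬝ᵥ v) := by
    rw [h2]
    have h4 : ∀ a b, v a * (M a b * v b) ≤ C * ((v a ^ 2 + v b ^ 2) / 2) := by
      intro a b
      have e1 : v a * (M a b * v b) = M a b * (v a * v b) := by ring
      rw [e1]
      have e2 : M a b * (v a * v b) ≤ |M a b| * |v a * v b| := by
        rw [← abs_mul]; exact le_abs_self _
      have e3 : |v a * v b| ≤ (v a ^ 2 + v b ^ 2) / 2 := by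
        rw [abs_le]
        constructor <;> nlinarith [sq_nonneg (v a + v b), sq_nonneg (v a - v b)]
      calc M a b * (v a * v b) ≤ |M a b| * |v a * v b| := e2
        _ ≤ C * |v a * v b| := mul_le_mul_of_nonneg_right (hM a b) (abs_nonneg _)
        _ ≤ C * ((v a ^ 2 + v b ^ 2) / 2) := mul_le_mul_of_nonneg_left e3 hC
    calc ∑ a, ∑ b, v a * (M a b * v b) ≤ ∑ a, ∑ b, C * ((v a ^ 2 + v b ^ 2) / 2) :=
          Finset.sum_le_sum fun a _ => Finset.sum_le_sum fun b _ => h4 a b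
      _ = 3 * C * (v ⬝ᵥ v) := by
          rw [dotProduct]
          simp only [Fin.sum_univ_three]
          ring
  rw [h1]
  have h5 : r ^ 2 / 3 * (v ⬝ᵥ (M *ᵥ v)) ≤ r ^ 2 / 3 * (3 * C * (v ⬝ᵥ v)) :=
    mul_le_mul_of_nonneg_left h3 (by positivity)
  have h6 : r ^ 2 / 3 * (3 * C * (v ⬝ᵥ v)) = (r ^ 2 * C) * (v ⬝ᵥ v) := by ring
  have h7 : (r ^ 2 * C) * (v ⬝ᵥ v) < 1 * (v ⬝ᵥ v) := mul_lt_mul_of_pos_right hr hvv
  rw [h6] at h5
  linarith

/-- The linear map `M ↦ (v ↦ M *ᵥ v)`. -/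
noncomputable def matL : M33 →ₗ[ℝ] (V3 →L[ℝ] V3) :=
  (LinearMap.toContinuousLinearMap : (V3 →ₗ[ℝ] V3) ≃ₗ[ℝ] (V3 →L[ℝ] V3)).toLinearMap ∘ₗ
    (Matrix.toLin' : M33 ≃ₗ[ℝ] (V3 →ₗ[ℝ] V3)).toLinearMap

theorem reg_qk_eq_matL (r : ℝ) (κ : B → M33) (u : B) :
    qk r κ u = matL ((r ^ 2) • ((1 : M33) - (r ^ 2 / 3) • κ u)) := rfl

theorem matL_eq_sum (M : M33) : matL M = ∑ a, ∑ b, M a b • matL (Matrix.single a b (1 : ℝ)) := by
  have h : M = ∑ a, ∑ b, M a b • Matrix.single a b (1 : ℝ) := by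
    conv_lhs => rw [Matrix.matrix_eq_sum_single M]
    refine Finset.sum_congr rfl fun a _ => Finset.sum_congr rfl fun b _ => ?_
    rw [Matrix.smul_single, smul_eq_mul, mul_one]
  conv_lhs => rw [h]
  simp only [map_sum, map_smul]

theorem contDiffAt_matL {n : WithTop ℕ∞} {F : Type*} [NormedAddCommGroup F] [NormedSpace ℝ F]
    {M : F → M33} {p : F} (h : ∀ a b, ContDiffAt ℝ n (fun x => M x a b) p) :
    ContDiffAt ℝ n (fun x => matL (M x)) p := by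
  have h1 : (fun x => matL (M x)) =
      fun x => ∑ a, ∑ b, M x a b • matL (Matrix.single a b (1 : ℝ)) :=
    funext fun x => matL_eq_sum (M x)
  rw [h1]
  refine ContDiffAt.sum fun a _ => ContDiffAt.sum fun b _ => ?_
  exact (h a b).smul contDiffAt_const

theorem reg_contDiffAt_qk {n : WithTop ℕ∞} {r : ℝ} {κ : B → M33} {u : B}
    (h : ∀ a b, ContDiffAt ℝ n (fun x => κ x a b) u) : ContDiffAt ℝ n (qk r κ) u := by
  have h1 : qk r κ = fun x => matL ((r ^ 2) • ((1 : M33) - (r ^ 2 / 3) • κ x)) :=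
    funext fun x => reg_qk_eq_matL r κ x
  rw [h1]
  refine contDiffAt_matL fun a b => ?_
  have h2 : (fun x => ((r ^ 2) • ((1 : M33) - (r ^ 2 / 3) • κ x)) a b) =
      fun x => r ^ 2 * ((1 : M33) a b - r ^ 2 / 3 * κ x a b) := by
    funext x
    simp [Matrix.smul_apply, Matrix.sub_apply]
  rw [h2]
  exact contDiffAt_const.mul (contDiffAt_const.sub (contDiffAt_const.mul (h a b)))

end Pool.Agent.HS
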