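import Mathlib

set_option autoImplicit false
set_option maxSynthPendingDepth 3

/-!
# Transformation law of the coordinate curvature under local diffeomorphisms (project HS)

Main results: `D1_eq`, `D2_eq` (the derivatives of the coefficients of a metric as iterated
`fderiv`), `Rm_pull` (the curvature form is a tensor), `PosAt_pull`, `NonnegAt_pull`.
-/

namespace Pool.Agent.HS

open Set Filter
open scoped ContDiff Topology

noncomputable section

variable {E : Type*} [NormedAddCommGroup E] [NormedSpace ℝ E]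
  {F : Type*} [NormedAddCommGroup F] [NormedSpace ℝ F]

/-- The Christoffel symbols of the first kind (Koszul formula):
`[u v, z] = (∂_u g(v, z) + ∂_v g(u, z) - ∂_z g(u, v)) / 2` at `x`. -/
def kos (g : E → E →L[ℝ] E →L[ℝ] ℝ) (x u v z : E) : ℝ :=
  (fderiv ℝ g x u v z + fderiv ℝ g x v u z - fderiv ℝ g x z u v) / 2

/-- `a` is the Christoffel vector `Γ(u, v)` of `g` at `x`: `g(a, z) = [u v, z]` for all `z`. -/
def IsChr (g : E → E →L[ℝ] E →L[ℝ] ℝ) (x u v a : E) : Prop :=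
  ∀ z, g x a z = kos g x u v z

/-- The part of the curvature `R(u, v, v, u)` with the second derivatives of `g`. -/
def sec2 (g : E → E →L[ℝ] E →L[ℝ] ℝ) (x u v : E) : ℝ :=
  fderiv ℝ (fderiv ℝ g) x u v u v
    - (fderiv ℝ (fderiv ℝ g) x u u v v + fderiv ℝ (fderiv ℝ g) x v v u u) / 2

/-- `k` is the value at `x` of `⟨R(u, v) v, u⟩`, the numerator of the sectional curvature of the
plane of `u`, `v`: `k = ∂²_uv g(u, v) - (∂²_uu g(v, v) + ∂²_vv g(u, u)) / 2
  + |Γ(u, v)|² - ⟨Γ(u, u), Γ(v, v)⟩`. -/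
def IsCurv (g : E → E →L[ℝ] E →L[ℝ] ℝ) (x u v : E) (k : ℝ) : Prop :=
  ∃ a b c : E, IsChr g x u v a ∧ IsChr g x u u b ∧ IsChr g x v v c ∧
    k = sec2 g x u v + g x a a - g x b c

lemma hasFDerivAt_bil {B : F → E →L[ℝ] E →L[ℝ] ℝ} {p q : F → E} {x : F}
    {B' : F →L[ℝ] E →L[ℝ] E →L[ℝ] ℝ} {p' q' : F →L[ℝ] E}
    (hB : HasFDerivAt B B' x) (hp : HasFDerivAt p p' x) (hq : HasFDerivAt q q' x) (c : F) :
    ∃ L : F →L[ℝ] ℝ, HasFDerivAt (fun y => B y (p y) (q y)) L x ∧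
      L c = B' c (p x) (q x) + B x (p' c) (q x) + B x (p x) (q' c) := by
  have h1 := (hB.clm_apply hp).clm_apply hq
  refine ⟨_, h1, ?_⟩
  simp
  ring

lemma fderiv_bil {B : F → E →L[ℝ] E →L[ℝ] ℝ} {p q : F → E} {x : F}
    (hB : DifferentiableAt ℝ B x) (hp : DifferentiableAt ℝ p x) (hq : DifferentiableAt ℝ q x)
    (c : F) :
    fderiv ℝ (fun y => B y (p y) (q y)) x c =
      fderiv ℝ B x c (p x) (q x) + B x (fderiv ℝ p x c) (q x) + B x (p x) (fderiv ℝ q x c) := by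
  obtain ⟨L, hL, hc⟩ := hasFDerivAt_bil hB.hasFDerivAt hp.hasFDerivAt hq.hasFDerivAt c
  rw [hL.fderiv, hc]

/-- The derivative of a bilinear-form valued map, evaluated. -/
lemma fderiv_eval₂ {B : F → E →L[ℝ] E →L[ℝ] ℝ} {x : F} (hB : DifferentiableAt ℝ B x)
    (a b : E) (c : F) : fderiv ℝ B x c a b = fderiv ℝ (fun y => B y a b) x c := by
  rw [fderiv_bil hB (differentiableAt_const a) (differentiableAt_const b)]
  simp

lemma contDiffAt_bilinearComp {B : F → E →L[ℝ] E →L[ℝ] ℝ} {p q : F → F →L[ℝ] E} {x : F}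
    {n : ℕ∞ω} (hB : ContDiffAt ℝ n B x) (hp : ContDiffAt ℝ n p x) (hq : ContDiffAt ℝ n q x) :
    ContDiffAt ℝ n (fun y => (B y).bilinearComp (p y) (q y)) x := by
  have h1 : ContDiffAt ℝ n (fun y => (B y).comp (p y)) x := hB.clm_comp hp
  have h2 : ContDiffAt ℝ n (fun y => ((B y).comp (p y)).flip) x :=
    (ContinuousLinearMap.flipₗᵢ ℝ F E ℝ).contDiff.contDiffAt.comp x h1
  have h3 : ContDiffAt ℝ n (fun y => (((B y).comp (p y)).flip).comp (q y)) x := h2.clm_comp hq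
  exact (ContinuousLinearMap.flipₗᵢ ℝ F F ℝ).contDiff.contDiffAt.comp x h3

lemma fderiv_symm_eval {g : E → E →L[ℝ] E →L[ℝ] ℝ} {x : E} (hg : DifferentiableAt ℝ g x)
    (hsymm : ∀ᶠ y in 𝓝 x, ∀ a b, g y a b = g y b a) (c a b : E) :
    fderiv ℝ g x c a b = fderiv ℝ g x c b a := by
  rw [fderiv_eval₂ hg, fderiv_eval₂ hg]
  have h : (fun y => g y a b) =ᶠ[𝓝 x] fun y => g y b a := by
    filter_upwards [hsymm] with y hy using hy a b
  rw [h.fderiv_eq]

lemma fderiv2_symm {τ : F → E} {x : F} (hτ : ContDiffAt ℝ 2 τ x) (a b : F) :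
    fderiv ℝ (fderiv ℝ τ) x a b = fderiv ℝ (fderiv ℝ τ) x b a :=
  (hτ.isSymmSndFDerivAt (by simp)) a b

/-! ### Comparison with the definitions of `Pool.Agent.HS.Defs` -/

end

end Pool.Agent.HS
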