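import Pool.Agent.H94.PT.M12
import Pool.Agent.H94.PT.M16

set_option autoImplicit false
set_option maxSynthPendingDepth 3

/-!
# Transformation law of the coordinate curvature under local diffeomorphisms (project HS)

Main results: `D1_eq`, `D2_eq` (the derivatives of the coefficients of a metric as iterated
`fderiv`), `Rm_pull` (the curvature form is a tensor), `PosAt_pull`, `NonnegAt_pull`.
-/

namespace Pool.Agent.HS

open Set Filter
open scoped ContDiff Topology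

noncomputable section

variable {E : Type*} [NormedAddCommGroup E] [NormedSpace ℝ E]
  {F : Type*} [NormedAddCommGroup F] [NormedSpace ℝ F]

lemma fderiv2_pull {τ : F → E} {g : E → E →L[ℝ] E →L[ℝ] ℝ} {x : F}
    (hg : ContDiffAt ℝ 2 g (τ x)) (hτ : ContDiffAt ℝ 3 τ x) (d c a b : F) :
    fderiv ℝ (fderiv ℝ (pull g τ)) x d c a b =
      (fderiv ℝ (fderiv ℝ g) (τ x) (fderiv ℝ τ x d) (fderiv ℝ τ x c) (fderiv ℝ τ x a)
          (fderiv ℝ τ x b) +
        fderiv ℝ g (τ x) (fderiv ℝ (fderiv ℝ τ) x d c) (fderiv ℝ τ x a) (fderiv ℝ τ x b) +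
        fderiv ℝ g (τ x) (fderiv ℝ τ x c) (fderiv ℝ (fderiv ℝ τ) x d a) (fderiv ℝ τ x b) +
        fderiv ℝ g (τ x) (fderiv ℝ τ x c) (fderiv ℝ τ x a) (fderiv ℝ (fderiv ℝ τ) x d b)) +
      (fderiv ℝ g (τ x) (fderiv ℝ τ x d) (fderiv ℝ (fderiv ℝ τ) x c a) (fderiv ℝ τ x b) +
        g (τ x) (fderiv ℝ (fderiv ℝ (fderiv ℝ τ)) x d c a) (fderiv ℝ τ x b) +
        g (τ x) (fderiv ℝ (fderiv ℝ τ) x c a) (fderiv ℝ (fderiv ℝ τ) x d b)) +
      (fderiv ℝ g (τ x) (fderiv ℝ τ x d) (fderiv ℝ τ x a) (fderiv ℝ (fderiv ℝ τ) x c b) +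
        g (τ x) (fderiv ℝ (fderiv ℝ τ) x d a) (fderiv ℝ (fderiv ℝ τ) x c b) +
        g (τ x) (fderiv ℝ τ x a) (fderiv ℝ (fderiv ℝ (fderiv ℝ τ)) x d c b)) := by
  have hτd : DifferentiableAt ℝ τ x := hτ.differentiableAt (by norm_num)
  have hgd : DifferentiableAt ℝ g (τ x) := hg.differentiableAt (by norm_num)
  have hg' : ContDiffAt ℝ 1 (fderiv ℝ g) (τ x) := hg.fderiv_right (by norm_num)
  have hg'd : DifferentiableAt ℝ (fderiv ℝ g) (τ x) := hg'.differentiableAt (by norm_num)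
  have hτ' : ContDiffAt ℝ 2 (fderiv ℝ τ) x := hτ.fderiv_right (by norm_num)
  have hτ'd : DifferentiableAt ℝ (fderiv ℝ τ) x := hτ'.differentiableAt (by norm_num)
  have hτ'' : ContDiffAt ℝ 1 (fderiv ℝ (fderiv ℝ τ)) x := hτ'.fderiv_right (by norm_num)
  have hτ''d : DifferentiableAt ℝ (fderiv ℝ (fderiv ℝ τ)) x :=
    hτ''.differentiableAt (by norm_num)
  have hpb : ContDiffAt ℝ 2 (pull g τ) x := contDiffAt_pull hg hτ (by norm_num)
  have hpb' : ContDiffAt ℝ 1 (fderiv ℝ (pull g τ)) x := hpb.fderiv_right (by norm_num)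
  have hpb'd : DifferentiableAt ℝ (fderiv ℝ (pull g τ)) x := hpb'.differentiableAt (by norm_num)
  -- reduce to a scalar function
  have h0 : fderiv ℝ (fderiv ℝ (pull g τ)) x d c a b =
      fderiv ℝ (fun y => fderiv ℝ (pull g τ) y c a b) x d := by
    have h1 : fderiv ℝ (fun y => fderiv ℝ (pull g τ) y c) x d =
        fderiv ℝ (fderiv ℝ (pull g τ)) x d c := by
      rw [fderiv_clm_apply hpb'd (differentiableAt_const c)]
      simp
    rw [← h1, fderiv_eval₂ (hpb'd.clm_apply (differentiableAt_const c))]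
  have hev : (fun y => fderiv ℝ (pull g τ) y c a b) =ᶠ[𝓝 x] fun y =>
      fderiv ℝ g (τ y) (fderiv ℝ τ y c) (fderiv ℝ τ y a) (fderiv ℝ τ y b) +
      g (τ y) (fderiv ℝ (fderiv ℝ τ) y c a) (fderiv ℝ τ y b) +
      g (τ y) (fderiv ℝ τ y a) (fderiv ℝ (fderiv ℝ τ) y c b) := by
    have e1 : ∀ᶠ y in 𝓝 x, ContDiffAt ℝ 3 τ y := hτ.eventually (by decide)
    have e2 : ∀ᶠ y in 𝓝 x, ContDiffAt ℝ 2 g (τ y) :=
      hτ.continuousAt.eventually (hg.eventually (by decide))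
    filter_upwards [e1, e2] with y hy1 hy2
    exact fderiv_pull (hy2.of_le (by norm_num)) (hy1.of_le (by norm_num)) c a b
  rw [h0, hev.fderiv_eq]
  -- derivatives of the pieces
  have hτv : ∀ e : F, DifferentiableAt ℝ (fun y => fderiv ℝ τ y e) x := fun e =>
    hτ'd.clm_apply (differentiableAt_const e)
  have dτv : ∀ e : F, fderiv ℝ (fun y => fderiv ℝ τ y e) x d = fderiv ℝ (fderiv ℝ τ) x d e := by
    intro e
    rw [fderiv_clm_apply hτ'd (differentiableAt_const e)]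
    simp
  have hτvv : ∀ e f : F, DifferentiableAt ℝ (fun y => fderiv ℝ (fderiv ℝ τ) y e f) x :=
    fun e f => (hτ''d.clm_apply (differentiableAt_const e)).clm_apply (differentiableAt_const f)
  have dτvv : ∀ e f : F, fderiv ℝ (fun y => fderiv ℝ (fderiv ℝ τ) y e f) x d =
      fderiv ℝ (fderiv ℝ (fderiv ℝ τ)) x d e f := by
    intro e f
    rw [fderiv_clm_apply (hτ''d.clm_apply (differentiableAt_const e)) (differentiableAt_const f),
      fderiv_clm_apply hτ''d (differentiableAt_const e)]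
    simp
  have hG : DifferentiableAt ℝ (fun y => g (τ y)) x := hgd.comp x hτd
  have dG : fderiv ℝ (fun y => g (τ y)) x = (fderiv ℝ g (τ x)).comp (fderiv ℝ τ x) :=
    fderiv_comp x hgd hτd
  have hG' : DifferentiableAt ℝ (fun y => fderiv ℝ g (τ y)) x := hg'd.comp x hτd
  have dG' : fderiv ℝ (fun y => fderiv ℝ g (τ y)) x =
      (fderiv ℝ (fderiv ℝ g) (τ x)).comp (fderiv ℝ τ x) := fderiv_comp x hg'd hτd
  have hGc : DifferentiableAt ℝ (fun y => fderiv ℝ g (τ y) (fderiv ℝ τ y c)) x :=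
    hG'.clm_apply (hτv c)
  have dGc : fderiv ℝ (fun y => fderiv ℝ g (τ y) (fderiv ℝ τ y c)) x d =
      fderiv ℝ (fderiv ℝ g) (τ x) (fderiv ℝ τ x d) (fderiv ℝ τ x c) +
      fderiv ℝ g (τ x) (fderiv ℝ (fderiv ℝ τ) x d c) := by
    rw [fderiv_clm_apply hG' (hτv c)]
    simp only [_root_.add_apply, ContinuousLinearMap.comp_apply,
      ContinuousLinearMap.flip_apply, dG', dτv]
    rw [add_comm]
  have t1 := fderiv_bil hGc (hτv a) (hτv b) d
  have t2 := fderiv_bil hG (hτvv c a) (hτv b) d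
  have t3 := fderiv_bil hG (hτv a) (hτvv c b) d
  rw [dGc, dτv, dτv] at t1
  rw [dG, dτvv, dτv] at t2
  rw [dG, dτvv, dτv] at t3
  have D1 : DifferentiableAt ℝ (fun y => fderiv ℝ g (τ y) (fderiv ℝ τ y c) (fderiv ℝ τ y a)
      (fderiv ℝ τ y b)) x := (hGc.clm_apply (hτv a)).clm_apply (hτv b)
  have D2 : DifferentiableAt ℝ (fun y => g (τ y) (fderiv ℝ (fderiv ℝ τ) y c a)
      (fderiv ℝ τ y b)) x := (hG.clm_apply (hτvv c a)).clm_apply (hτv b)
  have D3 : DifferentiableAt ℝ (fun y => g (τ y) (fderiv ℝ τ y a)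
      (fderiv ℝ (fderiv ℝ τ) y c b)) x := (hG.clm_apply (hτv a)).clm_apply (hτvv c b)
  have s := fderiv_add3 D1 D2 D3 d
  rw [s, t1, t2, t3]
  simp only [_root_.add_apply, ContinuousLinearMap.comp_apply]

/-- The curvature is a tensor: transformation law under `τ`. -/
theorem isCurv_pull {τ : F → E} {g : E → E →L[ℝ] E →L[ℝ] ℝ} {x : F}
    (hg : ContDiffAt ℝ 2 g (τ x)) (hτ : ContDiffAt ℝ 3 τ x)
    (hsymm : ∀ᶠ y in 𝓝 (τ x), ∀ a b, g y a b = g y b a)
    (hsurj : Function.Surjective (fderiv ℝ τ x)) {u v : F} {k : ℝ}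
    (h : IsCurv g (τ x) (fderiv ℝ τ x u) (fderiv ℝ τ x v) k) : IsCurv (pull g τ) x u v k := by
  have hg1 : ContDiffAt ℝ 1 g (τ x) := hg.of_le (by norm_num)
  have hgd : DifferentiableAt ℝ g (τ x) := hg.differentiableAt (by norm_num)
  have hτ2 : ContDiffAt ℝ 2 τ x := hτ.of_le (by norm_num)
  have hτ' : ContDiffAt ℝ 2 (fderiv ℝ τ) x := hτ.fderiv_right (by norm_num)
  have hs : ∀ a b, g (τ x) a b = g (τ x) b a := hsymm.self_of_nhds
  have hds : ∀ c a b, fderiv ℝ g (τ x) c a b = fderiv ℝ g (τ x) c b a := fun c a b =>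
    fderiv_symm_eval hgd hsymm c a b
  obtain ⟨a, b, c, ha, hb, hc, hk⟩ := h
  obtain ⟨a', ha'⟩ := hsurj (a + fderiv ℝ (fderiv ℝ τ) x u v)
  obtain ⟨b', hb'⟩ := hsurj (b + fderiv ℝ (fderiv ℝ τ) x u u)
  obtain ⟨c', hc'⟩ := hsurj (c + fderiv ℝ (fderiv ℝ τ) x v v)
  refine ⟨a', b', c', ?_, ?_, ?_, ?_⟩
  · intro z
    rw [kos_pull hg1 hτ2 hs, pull_apply, ha', map_add, _root_.add_apply, ha]
  · intro z
    rw [kos_pull hg1 hτ2 hs, pull_apply, hb', map_add, _root_.add_apply, hb]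
  · intro z
    rw [kos_pull hg1 hτ2 hs, pull_apply, hc', map_add, _root_.add_apply, hc]
  · have A1 := ha (fderiv ℝ (fderiv ℝ τ) x u v)
    have B1 := hb (fderiv ℝ (fderiv ℝ τ) x v v)
    have C1 := hc (fderiv ℝ (fderiv ℝ τ) x u u)
    have C2 := hs c (fderiv ℝ (fderiv ℝ τ) x u u)
    have A2 := hs a (fderiv ℝ (fderiv ℝ τ) x u v)
    unfold kos at A1 B1 C1
    rw [hk, pull_apply, pull_apply, ha', hb', hc']
    unfold sec2
    rw [fderiv2_pull hg hτ, fderiv2_pull hg hτ, fderiv2_pull hg hτ]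
    simp only [map_add, _root_.add_apply]
    rw [fderiv2_symm hτ2 v u, fderiv3_symm hτ u v u, fderiv3_symm hτ v v u,
      fderiv2_symm hτ' u v]
    have S1 := hs (fderiv ℝ τ x v) (fderiv ℝ (fderiv ℝ (fderiv ℝ τ)) x u u v)
    have S2 := hs (fderiv ℝ τ x u) (fderiv ℝ (fderiv ℝ (fderiv ℝ τ)) x v u v)
    have S3 := hds (fderiv ℝ τ x u) (fderiv ℝ τ x v) (fderiv ℝ (fderiv ℝ τ) x u v)
    have S4 := hds (fderiv ℝ τ x v) (fderiv ℝ τ x u) (fderiv ℝ (fderiv ℝ τ) x u v)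
    have S5 := hds (fderiv ℝ τ x v) (fderiv ℝ τ x v) (fderiv ℝ (fderiv ℝ τ) x u u)
    linarith

/-! ### Comparison with the definitions of `Pool.Agent.HS.Defs` -/

/-- The value of the coordinate curvature form can be computed from any solution of the
equations for the Christoffel vectors. -/
theorem Rm_eq_of_isCurv {G : E → E →L[ℝ] E →L[ℝ] ℝ} {p x y : E} {k : ℝ}
    (hG : ContDiffAt ℝ 2 G p) (hinv : (G p).IsInvertible) (h : IsCurv G p x y k) :
    Rm G p x y = k :=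
  IsCurv.unique hinv.injective (isCurv_Rm hG hinv x y) h

/-- The curvature form of a metric in coordinates is a tensor: transformation law under a local
diffeomorphism. -/
theorem Rm_pull {G : F → F →L[ℝ] F →L[ℝ] ℝ} {f : E → F} {p : E} (hG : ContDiffAt ℝ 2 G (f p))
    (hf : ContDiffAt ℝ 3 f p) (hsymm : ∀ᶠ q in 𝓝 (f p), ∀ a b, G q a b = G q b a)
    (hinv : (G (f p)).IsInvertible) (hf' : (fderiv ℝ f p).IsInvertible) (x y : E) :
    Rm (pull G f) p x y = Rm G (f p) (fderiv ℝ f p x) (fderiv ℝ f p y) := by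
  have h1 := isCurv_Rm hG hinv (fderiv ℝ f p x) (fderiv ℝ f p y)
  have h2 := isCurv_pull hG hf hsymm hf'.surjective h1
  have h3 : ContDiffAt ℝ 2 (pull G f) p := contDiffAt_pull hG hf (by norm_num)
  obtain ⟨e, he⟩ := hf'
  have h4 : (pull G f p).IsInvertible := by
    have := isInvertible_bilinearComp hinv e
    rw [he] at this
    exact this
  exact Rm_eq_of_isCurv h3 h4 h2

end

end Pool.Agent.HS
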