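import Pool.Agent.H94.PT.HS.Inc

set_option autoImplicit false
set_option maxSynthPendingDepth 3

/-!
# The manifolds `S² × ℝ³` and `S² × S²` in `ℝ³ × ℝ³` (project HS)

* `contMDiffAt_sphere`, `exists_liftE`, `exists_liftS`: smooth maps into the sphere and into
  `S² × ℝ³`, `S² × S²`;
* `injImmersion_zeroSec`, `injImmersion_tube`;
* `nonnegCurved_of_coord`, `posCurved_of_coord`: from coordinate computations to the curvature of
  a metric on `S² × ℝ³` and of the metrics induced on the tubes.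
-/

namespace Pool.Agent.HS

open Bundle Manifold Set Filter Metric Module Matrix
open scoped ContDiff Manifold Topology RealInnerProductSpace

noncomputable section

section Lift

variable {E : Type*} [NormedAddCommGroup E] [InnerProductSpace ℝ E] {n : ℕ}
  [Fact (finrank ℝ E = n + 1)]
  {F : Type*} [NormedAddCommGroup F] [NormedSpace ℝ F]
  {H : Type*} [TopologicalSpace H] {I : ModelWithCorners ℝ F H}
  {M : Type*} [TopologicalSpace M] [ChartedSpace H M]

/-- A map into the unit sphere is smooth at a point if it is smooth there as a map into the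
ambient space. -/
theorem contMDiffAt_sphere {φ : M → sphere (0 : E) 1} {x : M}
    (h : ContMDiffAt I 𝓘(ℝ, E) ∞ (fun u => (φ u : E)) x) : ContMDiffAt I (𝓡 n) ∞ φ x := by
  rw [contMDiffAt_iff_target]
  refine ⟨Topology.IsInducing.subtypeVal.continuousAt_iff.2 h.continuousAt, ?_⟩
  let U : (ℝ ∙ ((-φ x : sphere (0 : E) 1) : E))ᗮ ≃ₗᵢ[ℝ] EuclideanSpace ℝ (Fin n) :=
    (OrthonormalBasis.fromOrthogonalSpanSingleton
      n (ne_zero_of_mem_unit_sphere (-φ x))).repr
  have h1 : ContDiffAt ℝ ∞ (fun z : E => U (stereoToFun ((-φ x : sphere (0 : E) 1) : E) z))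
      (φ x : E) := by
    have h2 : ContDiffOn ℝ ∞ (stereoToFun ((-φ x : sphere (0 : E) 1) : E))
        {z : E | innerSL ℝ ((-φ x : sphere (0 : E) 1) : E) z ≠ (1 : ℝ)} :=
      contDiffOn_stereoToFun
    have h3 : {z : E | innerSL ℝ ((-φ x : sphere (0 : E) 1) : E) z ≠ (1 : ℝ)} ∈ 𝓝 (φ x : E) := by
      refine IsOpen.mem_nhds ?_ ?_
      · exact isOpen_ne_fun (innerSL ℝ ((-φ x : sphere (0 : E) 1) : E)).continuous
          continuous_const
      · change innerSL ℝ ((-φ x : sphere (0 : E) 1) : E) (φ x : E) ≠ (1 : ℝ)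
        have h4 : ‖(φ x : E)‖ = 1 := norm_eq_of_mem_sphere (φ x)
        have h5 : innerSL ℝ ((-φ x : sphere (0 : E) 1) : E) (φ x : E) = -1 := by
          rw [innerSL_apply_apply]
          change ⟪-(φ x : E), (φ x : E)⟫ = -1
          rw [inner_neg_left, real_inner_self_eq_norm_sq, h4]
          norm_num
        rw [h5]
        norm_num
    exact U.contDiff.contDiffAt.comp _ (h2.contDiffAt h3)
  have h6 : ContMDiffAt I 𝓘(ℝ, EuclideanSpace ℝ (Fin n)) ∞
      (fun u => U (stereoToFun ((-φ x : sphere (0 : E) 1) : E) (φ u : E))) x :=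
    ContMDiffAt.comp (I' := 𝓘(ℝ, E)) x
      (g := fun z : E => U (stereoToFun ((-φ x : sphere (0 : E) 1) : E) z)) h1.contMDiffAt h
  exact h6

end Lift

/-! ### Lifts -/

/-- A retraction of `ℝ³` to the sphere. -/
def toS2 (y : R3) : S2 :=
  if h : ‖y‖ = 1 then ⟨y, by simpa using h⟩ else ⟨EuclideanSpace.single 0 1, by simp⟩

lemma coe_toS2 {y : R3} (h : ‖y‖ = 1) : (toS2 y : R3) = y := by
  unfold toS2
  rw [dif_pos h]

lemma toS2_coe (y : S2) : toS2 (y : R3) = y := by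
  apply Subtype.ext
  exact coe_toS2 (by simp)

lemma norm_eR_symm {v : V3} (h : v ⬝ᵥ v = 1) : ‖eR.symm v‖ = 1 := by
  have h1 := dot_eR_self (eR.symm v)
  rw [ContinuousLinearEquiv.apply_symm_apply, h] at h1
  have h2 := norm_nonneg (eR.symm v)
  nlinarith

section Lifts

variable {F : Type*} [NormedAddCommGroup F] [NormedSpace ℝ F]

lemma contMDiffAt_toS2 {f : F → V3} {x : F} (hf : ContDiffAt ℝ ∞ f x)
    (h1 : ∀ᶠ u in 𝓝 x, f u ⬝ᵥ f u = 1) :
    ContMDiffAt 𝓘(ℝ, F) (𝓡 2) ∞ (fun u => toS2 (eR.symm (f u))) x := by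
  apply contMDiffAt_sphere
  have h2 : ContDiffAt ℝ ∞ (fun u => eR.symm (f u)) x := eR.symm.contDiff.contDiffAt.comp x hf
  refine h2.contMDiffAt.congr_of_eventuallyEq ?_
  filter_upwards [h1] with u hu
  exact coe_toS2 (norm_eR_symm hu)

omit [NormedSpace ℝ F] in
lemma eventually_eR_toS2 {f : F → V3} {x : F} (h1 : ∀ᶠ u in 𝓝 x, f u ⬝ᵥ f u = 1) :
    ∀ᶠ u in 𝓝 x, eR (toS2 (eR.symm (f u)) : R3) = f u := by
  filter_upwards [h1] with u hu
  rw [coe_toS2 (norm_eR_symm hu), ContinuousLinearEquiv.apply_symm_apply]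

/-- A smooth map into `V3 × V3` with values in `S² × V3` lifts to `S² × ℝ³`. -/
theorem exists_liftE {f : F → V3 × V3} {x : F} {p : S2 × R3} (hf : ContDiffAt ℝ ∞ f x)
    (hp : f x = iE p) (h1 : ∀ᶠ u in 𝓝 x, (f u).1 ⬝ᵥ (f u).1 = 1) :
    ∃ φ : F → S2 × R3, ContMDiffAt 𝓘(ℝ, F) IE ∞ φ x ∧ φ x = p ∧ iE ∘ φ =ᶠ[𝓝 x] f := by
  have hf1 : ContDiffAt ℝ ∞ (fun u => (f u).1) x := contDiffAt_fst.comp x hf
  have hf2 : ContDiffAt ℝ ∞ (fun u => eR.symm (f u).2) x :=
    eR.symm.contDiff.contDiffAt.comp x (contDiffAt_snd.comp x hf)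
  refine ⟨fun u => (toS2 (eR.symm (f u).1), eR.symm (f u).2), ?_, ?_, ?_⟩
  · exact (contMDiffAt_toS2 hf1 h1).prodMk hf2.contMDiffAt
  · have e1 : (f x).1 = eR (p.1 : R3) := by rw [hp]; rfl
    have e2 : (f x).2 = eR p.2 := by rw [hp]; rfl
    simp only [e1, e2, ContinuousLinearEquiv.symm_apply_apply, toS2_coe]
  · filter_upwards [eventually_eR_toS2 h1] with u hu
    change (eR (toS2 (eR.symm (f u).1) : R3), eR (eR.symm (f u).2)) = f u
    rw [hu, ContinuousLinearEquiv.apply_symm_apply]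

/-- A smooth map into `V3 × V3` with values in `S² × S²` lifts to `S² × S²`. -/
theorem exists_liftS {f : F → V3 × V3} {x : F} {q : S2 × S2} (hf : ContDiffAt ℝ ∞ f x)
    (hp : f x = (eR (q.1 : R3), eR (q.2 : R3))) (h1 : ∀ᶠ u in 𝓝 x, (f u).1 ⬝ᵥ (f u).1 = 1)
    (h2 : ∀ᶠ u in 𝓝 x, (f u).2 ⬝ᵥ (f u).2 = 1) :
    ∃ φ : F → S2 × S2, ContMDiffAt 𝓘(ℝ, F) IS ∞ φ x ∧ φ x = q ∧
      (fun u => (eR ((φ u).1 : R3), eR ((φ u).2 : R3))) =ᶠ[𝓝 x] f := by
  have hf1 : ContDiffAt ℝ ∞ (fun u => (f u).1) x := contDiffAt_fst.comp x hf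
  have hf2 : ContDiffAt ℝ ∞ (fun u => (f u).2) x := contDiffAt_snd.comp x hf
  refine ⟨fun u => (toS2 (eR.symm (f u).1), toS2 (eR.symm (f u).2)), ?_, ?_, ?_⟩
  · exact (contMDiffAt_toS2 hf1 h1).prodMk (contMDiffAt_toS2 hf2 h2)
  · have e1 : (f x).1 = eR (q.1 : R3) := by rw [hp]
    have e2 : (f x).2 = eR (q.2 : R3) := by rw [hp]
    simp only [e1, e2, ContinuousLinearEquiv.symm_apply_apply, toS2_coe]
  · filter_upwards [eventually_eR_toS2 h1, eventually_eR_toS2 h2] with u hu hv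
    simp only [hu, hv]

end Lifts

/-! ### The zero section and the tubes -/

lemma contMDiff_zeroSec : ContMDiff (𝓡 2) IE ∞ zeroSec :=
  contMDiff_id.prodMk contMDiff_const

lemma contMDiff_tube (r : ℝ) : ContMDiff IS IE ∞ (tube r) := by
  refine contMDiff_fst.prodMk ?_
  have h1 : ContMDiff IS 𝓘(ℝ, R3) ∞ (fun q : S2 × S2 => (q.2 : R3)) :=
    contMDiff_coe_sphere.comp contMDiff_snd
  exact ((contDiff_const_smul r).contMDiff (n := ∞)).comp h1

/-- The differential of the tube map, seen in `V3 × V3`. -/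
lemma mfderiv_iE_tube (r : ℝ) (q : S2 × S2)
    (a b : EuclideanSpace ℝ (Fin 2)) :
    (mfderiv IS 𝓘(ℝ, V3 × V3) (iE ∘ tube r) q :
      EuclideanSpace ℝ (Fin 2) × EuclideanSpace ℝ (Fin 2) →L[ℝ] V3 × V3) (a, b) =
      (dY q.1 a, r • dY q.2 b) := by
  have hE : MDifferentiableAt IS 𝓘(ℝ, V3 × V3) (iE ∘ tube r) q :=
    ((contMDiff_iE.comp (contMDiff_tube r)) q).mdifferentiableAt (by simp)
  refine Prod.ext ?_ ?_
  · have e1 := mfderiv_comp (I := IS) (I' := 𝓘(ℝ, V3 × V3)) (I'' := 𝓘(ℝ, V3)) q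
      (g := fun p : V3 × V3 => (ContinuousLinearMap.fst ℝ V3 V3) p)
      (ContinuousLinearMap.differentiableAt _).mdifferentiableAt hE
    have e2 := mfderiv_comp (I := IS) (I' := 𝓡 2) (I'' := 𝓘(ℝ, V3)) q (g := iY)
      (f := fun x : S2 × S2 => x.1)
      ((contMDiff_iY q.1).mdifferentiableAt (by simp)) mdifferentiableAt_fst
    rw [mfderiv_fst] at e2
    have e3 : mfderiv 𝓘(ℝ, V3 × V3) 𝓘(ℝ, V3)
        (fun p : V3 × V3 => (ContinuousLinearMap.fst ℝ V3 V3) p)
        ((iE ∘ tube r) q) = ContinuousLinearMap.fst ℝ V3 V3 := by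
      rw [mfderiv_eq_fderiv]
      exact ContinuousLinearMap.fderiv _
    rw [e3] at e1
    have e4 := e1.symm.trans e2
    exact congrArg (fun L : EuclideanSpace ℝ (Fin 2) × EuclideanSpace ℝ (Fin 2) →L[ℝ] V3 =>
      L (a, b)) e4
  · have e1 := mfderiv_comp (I := IS) (I' := 𝓘(ℝ, V3 × V3)) (I'' := 𝓘(ℝ, V3)) q
      (g := fun p : V3 × V3 => (ContinuousLinearMap.snd ℝ V3 V3) p)
      (ContinuousLinearMap.differentiableAt _).mdifferentiableAt hE
    have hY : MDifferentiableAt (𝓡 2) 𝓘(ℝ, V3) iY q.2 :=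
      (contMDiff_iY q.2).mdifferentiableAt (by simp)
    have hc : MDifferentiableAt IS 𝓘(ℝ, V3) (fun x : S2 × S2 => iY x.2) q :=
      hY.comp q mdifferentiableAt_snd
    have e2 := mfderiv_comp (I := IS) (I' := 𝓡 2) (I'' := 𝓘(ℝ, V3)) q (g := iY)
      (f := fun x : S2 × S2 => x.2) hY mdifferentiableAt_snd
    rw [mfderiv_snd] at e2
    have e5 := mfderiv_comp (I := IS) (I' := 𝓘(ℝ, V3)) (I'' := 𝓘(ℝ, V3)) q
      (g := fun v : V3 => (r • ContinuousLinearMap.id ℝ V3) v)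
      (f := fun x : S2 × S2 => iY x.2)
      (ContinuousLinearMap.differentiableAt _).mdifferentiableAt hc
    have e3 : mfderiv 𝓘(ℝ, V3 × V3) 𝓘(ℝ, V3)
        (fun p : V3 × V3 => (ContinuousLinearMap.snd ℝ V3 V3) p)
        ((iE ∘ tube r) q) = ContinuousLinearMap.snd ℝ V3 V3 := by
      rw [mfderiv_eq_fderiv]
      exact ContinuousLinearMap.fderiv _
    have e6 : mfderiv 𝓘(ℝ, V3) 𝓘(ℝ, V3) (fun v : V3 => (r • ContinuousLinearMap.id ℝ V3) v)
        (iY q.2) = r • ContinuousLinearMap.id ℝ V3 := by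
      rw [mfderiv_eq_fderiv]
      exact ContinuousLinearMap.fderiv _
    rw [e3] at e1
    rw [e6] at e5
    have e7 : (fun p : V3 × V3 => (ContinuousLinearMap.snd ℝ V3 V3) p) ∘ (iE ∘ tube r) =
        (fun v : V3 => (r • ContinuousLinearMap.id ℝ V3) v) ∘ (fun x : S2 × S2 => iY x.2) := by
      funext x
      change eR (r • (x.2 : R3)) = r • eR (x.2 : R3)
      rw [map_smul]
    rw [e7] at e1
    have e4 := e1.symm.trans e5
    have e8 := congrArg (fun L : EuclideanSpace ℝ (Fin 2) × EuclideanSpace ℝ (Fin 2) →L[ℝ] V3 =>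
      L (a, b)) e4
    have e9 := congrArg (fun L : EuclideanSpace ℝ (Fin 2) × EuclideanSpace ℝ (Fin 2) →L[ℝ] V3 =>
      L (a, b)) e2
    have e10 : (mfderiv IS 𝓘(ℝ, V3) (fun x : S2 × S2 => iY x.2) q :
        EuclideanSpace ℝ (Fin 2) × EuclideanSpace ℝ (Fin 2) →L[ℝ] V3) (a, b) = dY q.2 b := e9
    exact e8.trans (congrArg (fun v : V3 => r • v) e10)

lemma mfderiv_iE_tube_injective {r : ℝ} (hr : 0 < r) (q : S2 × S2) : Function.Injective
    (mfderiv IS 𝓘(ℝ, V3 × V3) (iE ∘ tube r) q :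
      EuclideanSpace ℝ (Fin 2) × EuclideanSpace ℝ (Fin 2) →L[ℝ] V3 × V3) := by
  rintro ⟨a, b⟩ ⟨a', b'⟩ h
  have h' : ((dY q.1 a, r • dY q.2 b) : V3 × V3) = (dY q.1 a', r • dY q.2 b') := by
    rw [← mfderiv_iE_tube, ← mfderiv_iE_tube]
    exact h
  rw [Prod.mk.injEq] at h'
  have h2 : dY q.2 b = dY q.2 b' := smul_right_injective V3 hr.ne' h'.2
  rw [dY_injective q.1 h'.1, dY_injective q.2 h2]

lemma mfderiv_tube_injective {r : ℝ} (hr : 0 < r) (q : S2 × S2) : Function.Injective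
    (mfderiv IS IE (tube r) q :
      EuclideanSpace ℝ (Fin 2) × EuclideanSpace ℝ (Fin 2) →L[ℝ] EuclideanSpace ℝ (Fin 2) × R3) := by
  have h1 := mfderiv_comp (I := IS) (I' := IE) (I'' := 𝓘(ℝ, V3 × V3)) q
    ((contMDiff_iE (tube r q)).mdifferentiableAt (by simp))
    ((contMDiff_tube r q).mdifferentiableAt (by simp))
  have h2 := mfderiv_iE_tube_injective hr q
  rw [h1] at h2
  exact Function.Injective.of_comp (f := (mfderiv IE 𝓘(ℝ, V3 × V3) iE (tube r q) :
    EuclideanSpace ℝ (Fin 2) × R3 →L[ℝ] V3 × V3)) h2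

lemma injective_zeroSec : Function.Injective zeroSec := by
  intro y y' h
  exact (Prod.mk.injEq _ _ _ _ ▸ h : y = y' ∧ (0 : R3) = 0).1

lemma injective_tube {r : ℝ} (hr : 0 < r) : Function.Injective (tube r) := by
  intro q q' h
  have h1 : (tube r q).1 = (tube r q').1 := by rw [h]
  have h2 : (tube r q).2 = (tube r q').2 := by rw [h]
  exact Prod.ext h1 (Subtype.ext (smul_right_injective R3 hr.ne' h2))

/-- The zero section is an injective immersion. -/
theorem injImmersion_zeroSec : InjImmersion IE (𝓡 2) zeroSec where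
  smooth := contMDiff_zeroSec
  injective := injective_zeroSec
  immersion q := by
    have h1 := mfderiv_comp (I := 𝓡 2) (I' := IE) (I'' := 𝓡 2) q
      (g := fun x : S2 × R3 => x.1) (f := zeroSec) mdifferentiableAt_fst
      ((contMDiff_zeroSec q).mdifferentiableAt (by simp))
    have h2 : (fun x : S2 × R3 => x.1) ∘ zeroSec = id := rfl
    rw [h2, mfderiv_id] at h1
    have h3 : Function.Injective
        ((ContinuousLinearMap.id ℝ (EuclideanSpace ℝ (Fin 2)))) := fun _ _ h => h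
    change Function.Injective (mfderiv (𝓡 2) IE zeroSec q)
    intro a b hab
    have h4 : ∀ c : EuclideanSpace ℝ (Fin 2), c =
        (mfderiv IE (𝓡 2) (fun x : S2 × R3 => x.1) (zeroSec q) :
          EuclideanSpace ℝ (Fin 2) × R3 →L[ℝ] EuclideanSpace ℝ (Fin 2))
          (mfderiv (𝓡 2) IE zeroSec q c : EuclideanSpace ℝ (Fin 2) × R3) := fun c =>
      congrArg (fun L : EuclideanSpace ℝ (Fin 2) →L[ℝ] EuclideanSpace ℝ (Fin 2) => L c) h1
    rw [h4 a, h4 b]
    exact congrArg _ hab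

/-- The tube of radius `r > 0` is an injective immersion. -/
theorem injImmersion_tube {r : ℝ} (hr : 0 < r) : InjImmersion IE IS (tube r) where
  smooth := contMDiff_tube r
  injective := injective_tube hr
  immersion q := mfderiv_tube_injective hr q

/-! ### Curvature from the coordinate computations -/

/-- The linear isomorphism of the model space of `S² × ℝ³` with `V2 × V3`. -/
def eqE : (EuclideanSpace ℝ (Fin 2) × R3) ≃L[ℝ] V2 × V3 :=
  (EuclideanSpace.equiv (Fin 2) ℝ).prodCongr eR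

/-- The linear isomorphism of the model space of `S² × S²` with `V2 × V2`. -/
def eqS : (EuclideanSpace ℝ (Fin 2) × EuclideanSpace ℝ (Fin 2)) ≃L[ℝ] V2 × V2 :=
  (EuclideanSpace.equiv (Fin 2) ℝ).prodCongr (EuclideanSpace.equiv (Fin 2) ℝ)

lemma fderiv_congr_injective {F V : Type*} [NormedAddCommGroup F] [NormedSpace ℝ F]
    [NormedAddCommGroup V] [NormedSpace ℝ V] {f f' : F → V} {x : F} (h : f =ᶠ[𝓝 x] f')
    (hi : Function.Injective (fderiv ℝ f' x)) : Function.Injective (fderiv ℝ f x) := by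
  rwa [h.fderiv_eq]

lemma pull_congr_nhds {F V : Type*} [NormedAddCommGroup F] [NormedSpace ℝ F]
    [NormedAddCommGroup V] [NormedSpace ℝ V] {G : V → V →L[ℝ] V →L[ℝ] ℝ} {f f' : F → V} {x : F}
    (h : f =ᶠ[𝓝 x] f') : pull G f =ᶠ[𝓝 x] pull G f' := by
  filter_upwards [h.eventually_nhds] with z hz
  have hz' : f =ᶠ[𝓝 z] f' := hz
  ext a b
  rw [pull_apply, pull_apply, hz'.fderiv_eq, hz'.self_of_nhds]

section Main

variable {G : V3 × V3 → V3 × V3 →L[ℝ] V3 × V3 →L[ℝ] ℝ}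
  {g : (x : S2 × R3) → TangentSpace IE x →L[ℝ] TangentSpace IE x →L[ℝ] ℝ}

lemma fderiv_scale_injective {ψ : V2 × V2 → V3 × V3} {x : V2 × V2} {t : ℝ} (ht : 0 < t)
    (hψ : DifferentiableAt ℝ ψ x) (hi : Function.Injective (fderiv ℝ ψ x)) :
    Function.Injective (fderiv ℝ (fun p => ((ψ p).1, t • (ψ p).2)) x) := by
  let L : V3 × V3 →L[ℝ] V3 × V3 := (ContinuousLinearMap.fst ℝ V3 V3).prod
    (t • ContinuousLinearMap.snd ℝ V3 V3)
  have h1 : HasFDerivAt (fun p => L (ψ p)) (L.comp (fderiv ℝ ψ x)) x :=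
    L.hasFDerivAt.comp x hψ.hasFDerivAt
  have h2 : (fun p => L (ψ p)) = fun p => ((ψ p).1, t • (ψ p).2) := rfl
  rw [← h2, h1.fderiv]
  have hL : Function.Injective L := by
    rintro ⟨a, b⟩ ⟨a', b'⟩ hab
    have e1 : a = a' := congrArg (fun z : V3 × V3 => z.1) hab
    have e2 : t • b = t • b' := congrArg (fun z : V3 × V3 => z.2) hab
    rw [e1, smul_right_injective V3 ht.ne' e2]
  exact hL.comp hi

end Main

end

end Pool.Agent.HS
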